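import Mathlib
import Pool.Agent.H319R2.LeighBridge

set_option autoImplicit false

/-!
Leigh's chain: entropy formula for `Λ_C` and the monotone classes.
-/

namespace Pool.Agent.W44.LM

open Finset Filter Pool.Agent.H319R2.M Pool.Agent.H319R2.Leigh

/-- the number of successors of the state `B` in Leigh's chain -/
def succ (d : ℕ) (e : ℤ → ℕ) (B : ℤ × ℕ) : ℕ := d / Nat.gcd (B.2 * e (B.1 % d)) d

variable {d : ℕ} {m r b : ℤ → ℤ} {e : ℤ → ℕ} {C : Finset (ℤ × ℕ)} {ρ : ℤ × ℕ → ℝ}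

theorem d_pos (D : Data d m r b e) : 0 < d := by have := D.two_le; omega

theorem succ_mul (D : Data d m r b e) (B : ℤ × ℕ) :
    succ d e B * Nat.gcd (B.2 * e (B.1 % d)) d = d :=
  Nat.div_mul_cancel (Nat.gcd_dvd_right _ _)

theorem gcd_pos (D : Data d m r b e) (B : ℤ × ℕ) : 0 < Nat.gcd (B.2 * e (B.1 % d)) d :=
  Nat.gcd_pos_of_pos_right _ (d_pos D)

theorem succ_pos (D : Data d m r b e) (B : ℤ × ℕ) : 0 < succ d e B := by
  have h := succ_mul D B
  have := d_pos D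
  rcases Nat.eq_zero_or_pos (succ d e B) with h0 | h0
  · rw [h0] at h; omega
  · exact h0

theorem succ_le (D : Data d m r b e) (B : ℤ × ℕ) : succ d e B ≤ d := Nat.div_le_self _ _

theorem succ_dvd (D : Data d m r b e) (B : ℤ × ℕ) : succ d e B ∣ d :=
  ⟨_, (succ_mul D B).symm⟩

theorem res0 (D : Data d m r b e) (x : ℤ) : 0 ≤ x % (d : ℤ) :=
  Int.emod_nonneg _ (by have := d_pos D; omega)

theorem res1 (D : Data d m r b e) (x : ℤ) : x % (d : ℤ) < d :=
  Int.emod_lt_of_pos _ (by have := d_pos D; omega)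

theorem b_ne (D : Data d m r b e) (x : ℤ) : b (x % d) ≠ 0 := by
  intro h
  have h1 := D.cop _ (res0 D x) (res1 D x)
  rw [h, isCoprime_zero_left, Int.isUnit_iff] at h1
  have := D.two_le
  omega

/-- a state has as many multiplicative choices as successors only if it is trivial -/
theorem succ_eq_one (D : Data d m r b e) (B : ℤ × ℕ) (h : |b (B.1 % d)| = succ d e B) :
    succ d e B = 1 := by
  have h1 := D.cop _ (res0 D B.1) (res1 D B.1)
  have h2 : (succ d e B : ℤ) ∣ d := by exact_mod_cast succ_dvd D B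
  have h3 : (succ d e B : ℤ) ∣ b (B.1 % d) := by rw [← dvd_abs, h]
  have h4 := h1.isUnit_of_dvd' h3 h2
  rw [Int.isUnit_iff] at h4
  omega

theorem P_pos_iff (D : Data d m r b e) (B B' : ℤ × ℕ) : 0 < P d m r e B B' ↔
    B'.2 = B.2 * e (B.1 % d) / Nat.gcd (B.2 * e (B.1 % d)) d ∧ 0 ≤ B'.1 ∧
      B'.1 < d * B'.2 ∧ T d m r B.1 ≡ B'.1 [ZMOD (B.2 * e (B.1 % d) : ℕ)] := by
  unfold P
  have h1 : (0 : ℝ) < Nat.gcd (B.2 * e (B.1 % d)) d := by exact_mod_cast gcd_pos D B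
  have h2 : (0 : ℝ) < d := by exact_mod_cast d_pos D
  split_ifs with h
  · exact ⟨fun _ => h, fun _ => by positivity⟩
  · exact ⟨fun h0 => absurd h0 (lt_irrefl _), fun h0 => absurd h0 h⟩

theorem P_val (D : Data d m r b e) (B B' : ℤ × ℕ) (h : 0 < P d m r e B B') :
    P d m r e B B' = 1 / succ d e B := by
  have h1 := (P_pos_iff D B B').1 h
  have h2 : P d m r e B B' = (Nat.gcd (B.2 * e (B.1 % d)) d : ℝ) / d := by
    unfold P; rw [if_pos h1]
  rw [h2]
  have h3 : ((succ d e B : ℕ) : ℝ) * (Nat.gcd (B.2 * e (B.1 % d)) d : ℕ) = d := by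
    exact_mod_cast succ_mul D B
  have h4 : (0 : ℝ) < succ d e B := by exact_mod_cast succ_pos D B
  have h5 : (0 : ℝ) < d := by exact_mod_cast d_pos D
  rw [div_eq_div_iff h5.ne' h4.ne', one_mul, mul_comm]
  exact h3

theorem P_zero_or (B B' : ℤ × ℕ) : P d m r e B B' = 0 ∨ 0 < P d m r e B B' := by
  unfold P
  split_ifs
  · rcases eq_or_lt_of_le (show (0 : ℝ) ≤ (Nat.gcd (B.2 * e (B.1 % d)) d : ℝ) / d by positivity)
      with h | h
    · left; exact h.symm
    · right; exact h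
  · left; rfl

theorem state_pos (D : Data d m r b e) (hC : Class d m r e C ρ) {B : ℤ × ℕ} (hB : B ∈ C) :
    1 ≤ B.2 := (gm_cls D hC).pos B hB

/-- the successor of a deterministic state is unique -/
theorem det (D : Data d m r b e) (B B' B'' : ℤ × ℕ) (h1 : succ d e B = 1)
    (h' : 0 < P d m r e B B') (h'' : 0 < P d m r e B B'') : B' = B'' := by
  obtain ⟨a1, a2, a3, a4⟩ := (P_pos_iff D B B').1 h'
  obtain ⟨c1, c2, c3, c4⟩ := (P_pos_iff D B B'').1 h''
  have hg : Nat.gcd (B.2 * e (B.1 % d)) d = d := by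
    have := succ_mul D B
    rw [h1, one_mul] at this
    exact this
  have hK : B.2 * e (B.1 % d) = d * B'.2 := by
    rw [a1, hg]
    have h2 : d ∣ B.2 * e (B.1 % d) := by
      have h3 := Nat.gcd_dvd_left (B.2 * e (B.1 % d)) d
      rwa [hg] at h3
    exact (Nat.mul_div_cancel' h2).symm
  have h2 : B'.2 = B''.2 := by rw [a1, c1]
  have h3 : B'.1 ≡ B''.1 [ZMOD (d * B'.2 : ℕ)] := by
    rw [← hK]; exact a4.symm.trans c4
  have h4 : B'.1 % ((d * B'.2 : ℕ) : ℤ) = B'.1 :=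
    Int.emod_eq_of_lt a2 (by push_cast; exact a3)
  have h5 : B''.1 % ((d * B'.2 : ℕ) : ℤ) = B''.1 :=
    Int.emod_eq_of_lt c2 (by push_cast; rw [h2]; exact c3)
  apply Prod.ext
  · rw [← h4, ← h5]; exact h3
  · exact h2

/-- the next state on the path of an integer -/
theorem next (D : Data d m r b e) (hC : Class d m r e C ρ) {B : ℤ × ℕ} (hB : B ∈ C) {x : ℤ}
    (hx : x ≡ B.1 [ZMOD (d * B.2 : ℕ)]) :
    ∃ B' ∈ C, 0 < P d m r e B B' ∧ T d m r x ≡ B'.1 [ZMOD (d * B'.2 : ℕ)] := by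
  have hf := gm_fac D
  have hk := state_pos D hC hB
  rw [Int.modEq_iff_dvd] at hx
  obtain ⟨c, hc⟩ := hx
  push_cast at hc
  have hxe : x = B.1 + (gm D).d * B.2 * (-c) := by
    change x = B.1 + (d : ℤ) * B.2 * (-c)
    linarith
  have hi0 := (gm D).res_nonneg B.1
  have hi1 := (gm D).res_lt B.1
  have hT : (gm D).T x = (gm D).T B.1 + (B.2 * e (B.1 % (gm D).d) : ℕ) *
      (b (B.1 % (gm D).d) * (-c)) := by
    rw [hxe, (gm D).T_affine, hf.eq _ hi0 hi1]
    push_cast; ring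
  have hp := GM.P_target hf B hk (b (B.1 % (gm D).d) * (-c))
  refine ⟨_, hC.closed B hB _ hp, hp, ?_⟩
  change (gm D).T x ≡ _ [ZMOD _]
  rw [hT]
  simp only
  push_cast
  exact (Int.mod_modEq _ _).symm

/-- the multiplier of a state -/
theorem mult (D : Data d m r b e) (hC : Class d m r e C ρ) {B B' : ℤ × ℕ} (hB : B ∈ C)
    (h : 0 < P d m r e B B') :
    |(m (B.1 % d) : ℝ)| / d * B.2 = (|b (B.1 % d)| : ℤ) / (succ d e B : ℝ) * B'.2 := by
  obtain ⟨a1, -, -, -⟩ := (P_pos_iff D B B').1 h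
  have hm := D.fac _ (res0 D B.1) (res1 D B.1)
  set g0 := Nat.gcd (B.2 * e (B.1 % d)) d with hg0
  have h1 : B'.2 * g0 = B.2 * e (B.1 % d) := by
    rw [a1]; exact Nat.div_mul_cancel (Nat.gcd_dvd_left _ _)
  have h2 : succ d e B * g0 = d := succ_mul D B
  have h3 : (0 : ℝ) < g0 := by exact_mod_cast gcd_pos D B
  have h4 : (0 : ℝ) < succ d e B := by exact_mod_cast succ_pos D B
  have h5 : ((succ d e B : ℕ) : ℝ) * (g0 : ℕ) = d := by exact_mod_cast h2
  have h6 : ((B'.2 : ℕ) : ℝ) * (g0 : ℕ) = B.2 * e (B.1 % d) := by exact_mod_cast h1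
  rw [hm, ← h5]
  push_cast
  rw [abs_mul, Nat.abs_cast, div_mul_eq_mul_div, div_mul_eq_mul_div, div_eq_div_iff (by positivity)
    (by positivity)]
  have h7 : |(b (B.1 % d) : ℝ)| * (e (B.1 % d) : ℝ) * (B.2 : ℝ) =
      |(b (B.1 % d) : ℝ)| * (B'.2 * g0) := by
    rw [h6]; ring
  rw [h7]; ring

end Pool.Agent.W44.LM
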