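import Mathlib
import Pool.Agent.W44.LM.Basic

set_option autoImplicit false

/-!
Leigh's chain: potentials and trajectories in the monotone classes.
-/

namespace Pool.Agent.W44.LM

open Finset Filter Pool.Agent.H319R2.M Pool.Agent.H319R2.Leigh

/-- there is a path of length `t` from `B` to a good state -/
def Reach (d : ℕ) (m r : ℤ → ℤ) (e : ℤ → ℕ) (good : ℤ × ℕ → Prop) : ℕ → ℤ × ℕ → Prop
  | 0, B => good B
  | t + 1, B => ∃ B', 0 < P d m r e B B' ∧ Reach d m r e good t B'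

/-- the length of a shortest path to a good state -/
noncomputable def rank (d : ℕ) (m r : ℤ → ℤ) (e : ℤ → ℕ) (good : ℤ × ℕ → Prop) (B : ℤ × ℕ) : ℕ :=
  sInf {t | Reach d m r e good t B}

variable {d : ℕ} {m r b : ℤ → ℤ} {e : ℤ → ℕ} {C : Finset (ℤ × ℕ)} {ρ : ℤ × ℕ → ℝ}

theorem exists_reach (hC : Class d m r e C ρ) {good : ℤ × ℕ → Prop} {G : ℤ × ℕ} (hG : G ∈ C)
    (hg : good G) {B : ℤ × ℕ} (hB : B ∈ C) : ∃ t, Reach d m r e good t B := by
  have h := hC.comm B hB G hG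
  clear hB
  induction h using Relation.ReflTransGen.head_induction_on with
  | refl => exact ⟨0, hg⟩
  | head h1 _ ih =>
    obtain ⟨t, ht⟩ := ih
    exact ⟨t + 1, _, h1, ht⟩

theorem rank_step (D : Data d m r b e) (hC : Class d m r e C ρ) {good : ℤ × ℕ → Prop} {G : ℤ × ℕ}
    (hG : G ∈ C) (hg : good G) {B B' : ℤ × ℕ} (hB : B ∈ C) (hn : ¬ good B) (h1 : succ d e B = 1)
    (hP : 0 < P d m r e B B') : rank d m r e good B' + 1 ≤ rank d m r e good B := by
  have hne : {t | Reach d m r e good t B}.Nonempty := exists_reach hC hG hg hB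
  have hmem : Reach d m r e good (rank d m r e good B) B := Nat.sInf_mem hne
  rcases h : rank d m r e good B with _ | t
  · rw [h] at hmem
    exact absurd hmem hn
  · rw [h] at hmem
    obtain ⟨B'', hP', hR⟩ := hmem
    have := det D B B' B'' h1 hP hP'
    rw [← this] at hR
    have h2 : rank d m r e good B' ≤ t := Nat.sInf_le hR
    omega

theorem exists_root (q : ℝ) (hq : 1 < q) (n : ℕ) (hn : n ≠ 0) : ∃ l : ℝ, 1 < l ∧ l ^ n = q := by
  refine ⟨q ^ ((n : ℝ)⁻¹), Real.one_lt_rpow hq ?_, Real.rpow_inv_natCast_pow (by linarith) hn⟩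
  have : 0 < n := Nat.pos_of_ne_zero hn
  positivity

/-- the normalised multiplier of a state -/
noncomputable def β (d : ℕ) (b : ℤ → ℤ) (e : ℤ → ℕ) (B : ℤ × ℕ) : ℝ :=
  ((|b (B.1 % d)| : ℤ) : ℝ) / (succ d e B : ℝ)

theorem β_nonneg (B : ℤ × ℕ) : 0 ≤ β d b e B := by
  unfold β
  have : (0 : ℝ) ≤ ((|b (B.1 % d)| : ℤ) : ℝ) := by exact_mod_cast abs_nonneg _
  positivity

/-- potential in the contracting case -/
theorem pot_down (D : Data d m r b e) (hC : Class d m r e C ρ)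
    (hle : ∀ B ∈ C, |b (B.1 % d)| ≤ (succ d e B : ℤ)) {G : ℤ × ℕ} (hG : G ∈ C)
    (hg : |b (G.1 % d)| ≠ (succ d e G : ℤ)) :
    ∃ (w : ℤ × ℕ → ℝ) (l W : ℝ), 1 < l ∧ (∀ B ∈ C, 1 ≤ w B ∧ w B ≤ W) ∧
      ∀ B ∈ C, ∀ B', 0 < P d m r e B B' → β d b e B * w B' * l ≤ w B := by
  classical
  set good : ℤ × ℕ → Prop := fun B => |b (B.1 % d)| ≠ (succ d e B : ℤ) with hgood
  set rk := rank d m r e good with hrk
  obtain ⟨L, hL⟩ : ∃ L : ℕ, ∀ B ∈ C, rk B ≤ L := ⟨C.sup rk, fun B hB => le_sup hB⟩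
  have hd : (2 : ℝ) ≤ d := by exact_mod_cast D.two_le
  obtain ⟨l, hl, hlp⟩ := exists_root ((d : ℝ) / (d - 1)) (by
    rw [lt_div_iff₀ (by linarith)]; linarith) (L + 1) (by omega)
  refine ⟨fun B => l ^ rk B, l, l ^ L, hl, ?_, ?_⟩
  · intro B hB
    exact ⟨one_le_pow₀ hl.le, pow_le_pow_right₀ hl.le (hL B hB)⟩
  · intro B hB B' hP
    by_cases hgB : good B
    · have hlt : |b (B.1 % d)| < (succ d e B : ℤ) := lt_of_le_of_ne (hle B hB) hgB
      have hs0 : (0 : ℝ) < succ d e B := by exact_mod_cast succ_pos D B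
      have hsd : ((succ d e B : ℕ) : ℝ) ≤ d := by exact_mod_cast succ_le D B
      have h1 : β d b e B ≤ (d - 1) / d := by
        unfold β
        rw [div_le_div_iff₀ hs0 (by linarith)]
        have h2 : ((|b (B.1 % d)| : ℤ) : ℝ) ≤ (succ d e B : ℝ) - 1 := by
          have : |b (B.1 % d)| ≤ (succ d e B : ℤ) - 1 := by omega
          exact_mod_cast this
        nlinarith
      have h2 : l ^ rk B' ≤ l ^ L := pow_le_pow_right₀ hl.le (hL B' (hC.closed B hB B' hP))
      have h3 : (1 : ℝ) ≤ l ^ rk B := one_le_pow₀ hl.le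
      have hl0 : 0 < l := by linarith
      calc β d b e B * l ^ rk B' * l ≤ (d - 1) / d * l ^ L * l := by
            apply mul_le_mul_of_nonneg_right _ hl0.le
            exact mul_le_mul h1 h2 (by positivity) (by
              apply div_nonneg <;> linarith)
        _ = (d - 1) / d * l ^ (L + 1) := by rw [pow_succ]; ring
        _ = 1 := by
            rw [hlp]
            have : (d : ℝ) - 1 ≠ 0 := by linarith
            field_simp
        _ ≤ _ := h3
    · have heq : |b (B.1 % d)| = (succ d e B : ℤ) := by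
        by_contra hne; exact hgB hne
      have h1 := succ_eq_one D B heq
      have h2 := rank_step D hC hG hg hB hgB h1 hP
      have h3 : β d b e B = 1 := by
        unfold β; rw [heq, h1]; norm_num
      rw [h3, one_mul]
      change l ^ rk B' * l ≤ l ^ rk B
      rw [← pow_succ]
      exact pow_le_pow_right₀ hl.le h2

/-- potential in the expanding case -/
theorem pot_up (D : Data d m r b e) (hC : Class d m r e C ρ)
    (hle : ∀ B ∈ C, (succ d e B : ℤ) ≤ |b (B.1 % d)|) {G : ℤ × ℕ} (hG : G ∈ C)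
    (hg : |b (G.1 % d)| ≠ (succ d e G : ℤ)) :
    ∃ (w : ℤ × ℕ → ℝ) (l W : ℝ), 1 < l ∧ (∀ B ∈ C, 1 ≤ w B ∧ w B ≤ W) ∧
      ∀ B ∈ C, ∀ B', 0 < P d m r e B B' → l * w B ≤ β d b e B * w B' := by
  classical
  set good : ℤ × ℕ → Prop := fun B => |b (B.1 % d)| ≠ (succ d e B : ℤ) with hgood
  set rk := rank d m r e good with hrk
  obtain ⟨L, hL⟩ : ∃ L : ℕ, ∀ B ∈ C, rk B ≤ L := ⟨C.sup rk, fun B hB => le_sup hB⟩
  have hd : (2 : ℝ) ≤ d := by exact_mod_cast D.two_le
  obtain ⟨l, hl, hlp⟩ := exists_root (((d : ℝ) + 1) / d) (by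
    rw [lt_div_iff₀ (by linarith)]; linarith) (L + 1) (by omega)
  refine ⟨fun B => l ^ (L - rk B), l, l ^ L, hl, ?_, ?_⟩
  · intro B hB
    exact ⟨one_le_pow₀ hl.le, pow_le_pow_right₀ hl.le (Nat.sub_le _ _)⟩
  · intro B hB B' hP
    by_cases hgB : good B
    · have hlt : (succ d e B : ℤ) < |b (B.1 % d)| := lt_of_le_of_ne (hle B hB) (Ne.symm hgB)
      have hs0 : (0 : ℝ) < succ d e B := by exact_mod_cast succ_pos D B
      have hsd : ((succ d e B : ℕ) : ℝ) ≤ d := by exact_mod_cast succ_le D B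
      have h1 : (d + 1) / d ≤ β d b e B := by
        unfold β
        rw [div_le_div_iff₀ (by linarith) hs0]
        have h2 : (succ d e B : ℝ) + 1 ≤ ((|b (B.1 % d)| : ℤ) : ℝ) := by
          have : (succ d e B : ℤ) + 1 ≤ |b (B.1 % d)| := by omega
          exact_mod_cast this
        nlinarith
      have h2 : l ^ (L - rk B) ≤ l ^ L := pow_le_pow_right₀ hl.le (Nat.sub_le _ _)
      have h3 : (1 : ℝ) ≤ l ^ (L - rk B') := one_le_pow₀ hl.le
      have hl0 : 0 < l := by linarith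
      calc l * l ^ (L - rk B) ≤ l * l ^ L := mul_le_mul_of_nonneg_left h2 hl0.le
        _ = l ^ (L + 1) := by rw [pow_succ]; ring
        _ = (d + 1) / d := hlp
        _ ≤ β d b e B := h1
        _ ≤ _ := le_mul_of_one_le_right (β_nonneg B) h3
    · have heq : |b (B.1 % d)| = (succ d e B : ℤ) := by
        by_contra hne; exact hgB hne
      have h1 := succ_eq_one D B heq
      have h2 := rank_step D hC hG hg hB hgB h1 hP
      have h3 : β d b e B = 1 := by
        unfold β; rw [heq, h1]; norm_num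
      have h4 := hL B hB
      rw [h3, one_mul]
      change l * l ^ (L - rk B) ≤ l ^ (L - rk B')
      rw [← pow_succ']
      exact pow_le_pow_right₀ hl.le (by
        change rk B' + 1 ≤ rk B at h2
        omega)

/-- lower bound for one step -/
theorem step_ge (g : GM) (x : ℤ) : g.a (x % g.d) * |(x : ℝ)| - g.R ≤ |(g.T x : ℝ)| := by
  have h1 := g.T_mul x
  have hd : (0 : ℝ) < g.d := by have := g.dr; linarith
  have h2 : (g.d : ℝ) * (g.T x : ℝ) = g.m (x % g.d) * x - g.r (x % g.d) := by exact_mod_cast h1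
  have h3 : (g.m (x % g.d) : ℝ) * x = (g.d : ℝ) * (g.T x : ℝ) + g.r (x % g.d) := by linarith
  have h4 : |(g.m (x % g.d) : ℝ)| * |(x : ℝ)| ≤ g.d * |(g.T x : ℝ)| + g.R := by
    rw [← abs_mul, h3]
    refine (abs_add_le _ _).trans ?_
    rw [abs_mul, abs_of_pos hd]
    exact add_le_add le_rfl (g.r_le x)
  unfold GM.a
  have hR := g.R_nonneg
  have h5 : |(g.m (x % g.d) : ℝ)| / g.d * |(x : ℝ)| ≤ |(g.T x : ℝ)| + g.R / g.d := by
    rw [div_mul_eq_mul_div, div_le_iff₀ hd, add_mul, div_mul_cancel₀ _ hd.ne']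
    linarith
  have h6 : g.R / g.d ≤ g.R := div_le_self hR (by have := g.dr; linarith)
  linarith

/-- the normalised size is multiplied by `β` up to a bounded error -/
theorem norm_step (D : Data d m r b e) (hC : Class d m r e C ρ) {B B' : ℤ × ℕ} (hB : B ∈ C)
    (hP : 0 < P d m r e B B') {x : ℤ} (hx : x ≡ B.1 [ZMOD (d * B.2 : ℕ)]) :
    |((T d m r x : ℤ) : ℝ)| / B'.2 ≤ β d b e B * (|(x : ℝ)| / B.2) + (gm D).R ∧
      β d b e B * (|(x : ℝ)| / B.2) - (gm D).R ≤ |((T d m r x : ℤ) : ℝ)| / B'.2 := by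
  have hk : (1 : ℝ) ≤ B.2 := by exact_mod_cast state_pos D hC hB
  have hk' : (1 : ℝ) ≤ B'.2 := by exact_mod_cast state_pos D hC (hC.closed B hB B' hP)
  have hres : x % (d : ℤ) = B.1 % d := by
    have : x ≡ B.1 [ZMOD (d : ℤ)] := hx.of_dvd ⟨(B.2 : ℤ), by push_cast; ring⟩
    exact this
  have h1 := (gm D).step_le x
  have h2 := step_ge (gm D) x
  have h3 := mult D hC hB hP
  have ha : (gm D).a (x % (gm D).d) = |(m (B.1 % d) : ℝ)| / d := by
    change (gm D).a (x % (d : ℤ)) = _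
    rw [hres]; rfl
  rw [ha] at h1 h2
  change |((T d m r x : ℤ) : ℝ)| ≤ _ at h1
  change _ ≤ |((T d m r x : ℤ) : ℝ)| at h2
  have h4 : |(m (B.1 % d) : ℝ)| / d * |(x : ℝ)| / B'.2 = β d b e B * (|(x : ℝ)| / B.2) := by
    rw [mul_div_assoc', div_eq_div_iff (by linarith) (by linarith)]
    calc |(m (B.1 % d) : ℝ)| / d * |(x : ℝ)| * B.2 = (|(m (B.1 % d) : ℝ)| / d * B.2) * |(x : ℝ)| := by
          ring
      _ = β d b e B * |(x : ℝ)| * B'.2 := by rw [h3]; unfold β; ring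
  have hR := (gm D).R_nonneg
  have h5 : (gm D).R / B'.2 ≤ (gm D).R := div_le_self hR hk'
  constructor
  · rw [← h4]
    calc |((T d m r x : ℤ) : ℝ)| / B'.2 ≤ (|(m (B.1 % d) : ℝ)| / d * |(x : ℝ)| + (gm D).R) / B'.2 :=
          div_le_div_of_nonneg_right h1 (by linarith)
      _ = |(m (B.1 % d) : ℝ)| / d * |(x : ℝ)| / B'.2 + (gm D).R / B'.2 := add_div _ _ _
      _ ≤ _ := by linarith
  · rw [← h4]
    calc |(m (B.1 % d) : ℝ)| / d * |(x : ℝ)| / B'.2 - (gm D).R
        ≤ |(m (B.1 % d) : ℝ)| / d * |(x : ℝ)| / B'.2 - (gm D).R / B'.2 := by linarith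
      _ = (|(m (B.1 % d) : ℝ)| / d * |(x : ℝ)| - (gm D).R) / B'.2 := (sub_div _ _ _).symm
      _ ≤ _ := div_le_div_of_nonneg_right h2 (by linarith)

end Pool.Agent.W44.LM
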