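import Mathlib
import Pool.Agent.W44.LM.Dyn

set_option autoImplicit false

/-!
Leigh's chain: the entropy formula for `Λ_C` and the trajectories of the monotone classes.
-/

namespace Pool.Agent.W44.LM

open Finset Filter Pool.Agent.H319R2.M Pool.Agent.H319R2.Leigh

variable {d : ℕ} {m r b : ℤ → ℤ} {e : ℤ → ℕ} {C : Finset (ℤ × ℕ)} {ρ : ℤ × ℕ → ℝ}

theorem Lam_pos (D : Data d m r b e) : 0 < Lam d m C ρ := by
  unfold Lam
  apply Finset.prod_pos
  intro i hi
  rw [mem_range] at hi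
  have h := (gm D).ne i (by positivity) (by exact_mod_cast hi)
  have h2 : ((m (i : ℤ) : ℤ) : ℝ) ≠ 0 := by exact_mod_cast h
  have hd0 : (0 : ℝ) < d := by
    have : 0 < d := by have := D.two_le; omega
    exact_mod_cast this
  positivity

theorem sum_one (D : Data d m r b e) (hC : Class d m r e C ρ) {B : ℤ × ℕ} (hB : B ∈ C) :
    ∑ B' ∈ C, P d m r e B B' = 1 :=
  GM.sum_P_one (gm_fac D) C B (state_pos D hC hB) (hC.closed B hB)

theorem log_β (D : Data d m r b e) (B : ℤ × ℕ) :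
    Real.log (β d b e B) = Real.log ((|b (B.1 % d)| : ℤ) : ℝ) - Real.log (succ d e B : ℝ) := by
  unfold β
  have h1 : (0 : ℝ) < succ d e B := by exact_mod_cast succ_pos D B
  have h2 : ((|b (B.1 % d)| : ℤ) : ℝ) ≠ 0 := by
    have := abs_ne_zero.2 (b_ne D B.1)
    exact_mod_cast this
  exact Real.log_div h2 h1.ne'

theorem β_pos (D : Data d m r b e) (B : ℤ × ℕ) : 0 < β d b e B := by
  unfold β
  have h1 : (0 : ℝ) < succ d e B := by exact_mod_cast succ_pos D B
  have h2 : (0 : ℝ) < ((|b (B.1 % d)| : ℤ) : ℝ) := by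
    have := abs_pos.2 (b_ne D B.1)
    exact_mod_cast this
  positivity

theorem log_a (D : Data d m r b e) (hC : Class d m r e C ρ) {B : ℤ × ℕ} (hB : B ∈ C) :
    Real.log ((gm D).a (B.1 % (gm D).d)) = Real.log (β d b e B) - Real.log (B.2 : ℝ) +
      ∑ B' ∈ C, P d m r e B B' * Real.log (B'.2 : ℝ) := by
  have h1 : ∀ B' ∈ C, P d m r e B B' * Real.log (B'.2 : ℝ) = P d m r e B B' *
      (Real.log ((gm D).a (B.1 % (gm D).d)) + Real.log (B.2 : ℝ) - Real.log (β d b e B)) := by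
    intro B' hB'
    rcases P_zero_or (d := d) (m := m) (r := r) (e := e) B B' with h | h
    · rw [h]; ring
    · congr 1
      have h2 := mult D hC hB h
      have h3 : 0 < (gm D).a (B.1 % (gm D).d) := (gm D).a_pos B.1
      have h4 : (1 : ℝ) ≤ B.2 := by exact_mod_cast state_pos D hC hB
      have h5 : (1 : ℝ) ≤ B'.2 := by exact_mod_cast state_pos D hC hB'
      have h6 := β_pos D B
      have h7 : (gm D).a (B.1 % (gm D).d) * B.2 = β d b e B * B'.2 := h2
      have h8 := congrArg Real.log h7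
      rw [Real.log_mul h3.ne' (by linarith), Real.log_mul h6.ne' (by linarith)] at h8
      linarith
  rw [sum_congr rfl h1, ← sum_mul, sum_one D hC hB]
  ring

/-- `log Λ_C` is the mean of `log (|b| / n)` -/
theorem log_Lam_β (D : Data d m r b e) (hC : Class d m r e C ρ) :
    Real.log (Lam d m C ρ) = ∑ B ∈ C, ρ B * Real.log (β d b e B) := by
  rw [log_Lam D hC]
  have h1 : ∀ B ∈ C, ρ B * Real.log ((gm D).a (B.1 % (gm D).d)) =
      ρ B * Real.log (β d b e B) - ρ B * Real.log (B.2 : ℝ) +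
        ∑ B' ∈ C, ρ B * P d m r e B B' * Real.log (B'.2 : ℝ) := by
    intro B hB
    rw [log_a D hC hB, mul_add, mul_sub, mul_sum]
    congr 1
    exact sum_congr rfl fun B' _ => by ring
  rw [sum_congr rfl h1, sum_add_distrib, sum_sub_distrib, sum_comm]
  have h2 : ∑ B' ∈ C, ∑ B ∈ C, ρ B * P d m r e B B' * Real.log (B'.2 : ℝ) =
      ∑ B' ∈ C, ρ B' * Real.log (B'.2 : ℝ) := by
    apply sum_congr rfl
    intro B' hB'
    rw [← sum_mul, hC.stat B' hB']
  rw [h2]
  ring

/-- the entropy of one step -/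
theorem entropy (D : Data d m r b e) (hC : Class d m r e C ρ) {B : ℤ × ℕ} (hB : B ∈ C) :
    ∑ B' ∈ C, P d m r e B B' * Real.log (P d m r e B B') = - Real.log (succ d e B : ℝ) := by
  have h1 : ∀ B' ∈ C, P d m r e B B' * Real.log (P d m r e B B') =
      P d m r e B B' * (- Real.log (succ d e B : ℝ)) := by
    intro B' _
    rcases P_zero_or (d := d) (m := m) (r := r) (e := e) B B' with h | h
    · rw [h]; ring
    · congr 1
      rw [P_val D B B' h, one_div, Real.log_inv]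
  rw [sum_congr rfl h1, ← sum_mul, sum_one D hC hB, one_mul]

/-- the entropy formula for `Λ_C` -/
theorem log_Lam_entropy (D : Data d m r b e) (hC : Class d m r e C ρ) :
    Real.log (Lam d m C ρ) = ∑ B ∈ C, ρ B * Real.log ((|b (B.1 % d)| : ℤ) : ℝ) +
      ∑ B ∈ C, ρ B * ∑ B' ∈ C, P d m r e B B' * Real.log (P d m r e B B') := by
  rw [log_Lam_β D hC, ← sum_add_distrib]
  apply sum_congr rfl
  intro B hB
  rw [log_β D B, entropy D hC hB]
  ring

/-- all states have size at most `K` -/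
theorem exists_size (D : Data d m r b e) (hC : Class d m r e C ρ) :
    ∃ K : ℝ, 1 ≤ K ∧ ∀ B ∈ C, (B.2 : ℝ) ≤ K := by
  refine ⟨∑ B ∈ C, (B.2 : ℝ) + 1, ?_, ?_⟩
  · have : (0 : ℝ) ≤ ∑ B ∈ C, (B.2 : ℝ) := sum_nonneg fun _ _ => by positivity
    linarith
  · intro B hB
    have : (B.2 : ℝ) ≤ ∑ B ∈ C, (B.2 : ℝ) :=
      single_le_sum (f := fun B : ℤ × ℕ => (B.2 : ℝ)) (fun _ _ => by positivity) hB
    linarith

/-- contracting classes -/
theorem contract (D : Data d m r b e) (hC : Class d m r e C ρ)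
    (w : ℤ × ℕ → ℝ) (l W : ℝ) (hl : 1 < l) (hw : ∀ B ∈ C, 1 ≤ w B ∧ w B ≤ W)
    (hpot : ∀ B ∈ C, ∀ B', 0 < P d m r e B B' → β d b e B * w B' * l ≤ w B) :
    ∃ K : ℝ, 0 < K ∧ ∀ x ∈ S d C, ∀ n : ℕ, K * Real.log (1 + |(x : ℝ)|) ≤ n →
      |(((T d m r)^[n] x : ℤ) : ℝ)| ≤ K := by
  obtain ⟨Km, hKm1, hKm⟩ := exists_size D hC
  have hR := (gm D).R_nonneg
  set R := (gm D).R with hRdef
  set c := W * R * l / (l - 1) with hc
  have hl1 : 0 < l - 1 := by linarith
  have key : ∀ B ∈ C, ∀ x : ℤ, x ≡ B.1 [ZMOD (d * B.2 : ℕ)] → ∀ n : ℕ, ∃ B' ∈ C,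
      (T d m r)^[n] x ≡ B'.1 [ZMOD (d * B'.2 : ℕ)] ∧
      w B' * (|(((T d m r)^[n] x : ℤ) : ℝ)| / B'.2) ≤ w B * (|(x : ℝ)| / B.2) / l ^ n + c := by
    intro B hB x hx n
    have hW0 : 0 ≤ W := by have := hw B hB; linarith
    have hc0 : 0 ≤ c := by rw [hc]; positivity
    induction n with
    | zero =>
      refine ⟨B, hB, hx, ?_⟩
      simp only [Function.iterate_zero, id_eq, pow_zero, div_one]
      linarith
    | succ n ih =>
      obtain ⟨B', hB', hx', hle⟩ := ih
      obtain ⟨B'', hB'', hP, hx''⟩ := next D hC hB' hx'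
      refine ⟨B'', hB'', ?_, ?_⟩
      · rw [Function.iterate_succ_apply']; exact hx''
      · rw [Function.iterate_succ_apply']
        set y := (T d m r)^[n] x with hy
        obtain ⟨h1, -⟩ := norm_step D hC hB' hP hx'
        have hw'' := hw B'' hB''
        have hw' := hw B' hB'
        have h2 := hpot B' hB' B'' hP
        have hy0 : 0 ≤ |(y : ℝ)| / B'.2 := by positivity
        have h3 : w B'' * (|((T d m r y : ℤ) : ℝ)| / B''.2) ≤
            w B'' * (β d b e B' * (|(y : ℝ)| / B'.2) + R) :=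
          mul_le_mul_of_nonneg_left h1 (by linarith)
        have h4 : w B'' * β d b e B' ≤ w B' / l := by
          rw [le_div_iff₀ (by linarith)]; linarith
        have h5 : w B'' * β d b e B' * (|(y : ℝ)| / B'.2) ≤ w B' / l * (|(y : ℝ)| / B'.2) :=
          mul_le_mul_of_nonneg_right h4 hy0
        have h6 : w B'' * R ≤ W * R := mul_le_mul_of_nonneg_right hw''.2 hR
        have h7 : w B' / l * (|(y : ℝ)| / B'.2) ≤
            (w B * (|(x : ℝ)| / B.2) / l ^ n + c) / l := by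
          rw [div_mul_eq_mul_div]
          exact div_le_div_of_nonneg_right hle (by linarith)
        have h8 : (w B * (|(x : ℝ)| / B.2) / l ^ n + c) / l + W * R =
            w B * (|(x : ℝ)| / B.2) / l ^ (n + 1) + c := by
          rw [hc, pow_succ]
          have : l ≠ 0 := by linarith
          have : l - 1 ≠ 0 := by linarith
          field_simp
          ring
        rw [← h8]
        nlinarith
  by_cases hne : C.Nonempty
  · obtain ⟨B0, hB0⟩ := hne
    have hW1 : 1 ≤ W := by have := hw B0 hB0; linarith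
    have hc0 : 0 ≤ c := by rw [hc]; positivity
    have hlog : 0 < Real.log l := Real.log_pos hl
    refine ⟨max (1 / Real.log l) (Km * (W + c)), lt_max_of_lt_left (by positivity), ?_⟩
    intro x hx n hn
    obtain ⟨B, hB, hxB⟩ := hx
    obtain ⟨B', hB', -, hle⟩ := key B hB x hxB n
    have hk : (1 : ℝ) ≤ B.2 := by exact_mod_cast state_pos D hC hB
    have hk' : (1 : ℝ) ≤ B'.2 := by exact_mod_cast state_pos D hC hB'
    have hx0 : 0 ≤ |(x : ℝ)| := abs_nonneg _
    have hlx : 0 ≤ Real.log (1 + |(x : ℝ)|) := Real.log_nonneg (by linarith)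
    have h1 : 1 / Real.log l * Real.log (1 + |(x : ℝ)|) ≤ n :=
      (mul_le_mul_of_nonneg_right (le_max_left _ _) hlx).trans hn
    have h2 : Real.log (1 + |(x : ℝ)|) ≤ n * Real.log l := by
      rw [one_div, inv_mul_eq_div, div_le_iff₀ hlog] at h1
      exact h1
    have h3 : 1 + |(x : ℝ)| ≤ l ^ n := by
      rw [← Real.log_pow] at h2
      exact (Real.log_le_log_iff (by linarith) (by positivity)).1 h2
    have hln : 0 < l ^ n := by positivity
    have h4 : w B * (|(x : ℝ)| / B.2) / l ^ n ≤ W := by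
      rw [div_le_iff₀ hln]
      have h5 : |(x : ℝ)| / B.2 ≤ l ^ n := (div_le_self hx0 hk).trans (by linarith)
      exact mul_le_mul (hw B hB).2 h5 (by positivity) (by linarith)
    refine le_trans ?_ (le_max_right _ _)
    have h6 : |(((T d m r)^[n] x : ℤ) : ℝ)| / B'.2 ≤ W + c := by
      have h7 : |(((T d m r)^[n] x : ℤ) : ℝ)| / B'.2 ≤
          w B' * (|(((T d m r)^[n] x : ℤ) : ℝ)| / B'.2) :=
        le_mul_of_one_le_left (by positivity) (hw B' hB').1
      linarith
    rw [div_le_iff₀ (by linarith)] at h6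
    refine h6.trans ?_
    rw [mul_comm]
    exact mul_le_mul_of_nonneg_right (hKm B' hB') (by linarith)
  · refine ⟨1, one_pos, ?_⟩
    intro x hx
    obtain ⟨B, hB, -⟩ := hx
    exact absurd ⟨B, hB⟩ hne

/-- bounded trajectories cycle -/
theorem cycles {f : ℤ → ℤ} {x : ℤ} {K : ℝ} {N : ℕ} (h : ∀ n : ℕ, N ≤ n → |((f^[n] x : ℤ) : ℝ)| ≤ K) :
    ∃ n p : ℕ, 0 < p ∧ f^[n + p] x = f^[n] x := by
  have hfin : (Set.Icc (-⌈K⌉) ⌈K⌉).Finite := Set.finite_Icc _ _
  have hmem : ∀ n : ℕ, f^[N + n] x ∈ Set.Icc (-⌈K⌉) ⌈K⌉ := by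
    intro n
    have h1 := abs_le.1 (h (N + n) (by omega))
    have h2 := Int.le_ceil K
    constructor
    · have : (-(⌈K⌉ : ℝ)) ≤ ((f^[N + n] x : ℤ) : ℝ) := by linarith
      exact_mod_cast this
    · have : ((f^[N + n] x : ℤ) : ℝ) ≤ ⌈K⌉ := by linarith
      exact_mod_cast this
  obtain ⟨a, c, hac, heq⟩ := Set.Finite.exists_lt_map_eq_of_forall_mem hmem hfin
  refine ⟨N + a, c - a, by omega, ?_⟩
  have h3 : N + a + (c - a) = N + c := by omega
  rw [h3]
  exact heq.symm

/-- expanding classes -/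
theorem expand (D : Data d m r b e) (hC : Class d m r e C ρ)
    (w : ℤ × ℕ → ℝ) (l W : ℝ) (hl : 1 < l) (hw : ∀ B ∈ C, 1 ≤ w B ∧ w B ≤ W)
    (hpot : ∀ B ∈ C, ∀ B', 0 < P d m r e B B' → l * w B ≤ β d b e B * w B') :
    ∃ K : ℝ, 0 < K ∧ ∀ x ∈ S d C, K ≤ |(x : ℝ)| → ∀ n : ℕ,
      l ^ n ≤ K * |(((T d m r)^[n] x : ℤ) : ℝ)| := by
  obtain ⟨Km, hKm1, hKm⟩ := exists_size D hC
  have hR := (gm D).R_nonneg
  set R := (gm D).R with hRdef
  set c := W * R / (l - 1) with hc
  have hl1 : 0 < l - 1 := by linarith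
  have key : ∀ B ∈ C, ∀ x : ℤ, x ≡ B.1 [ZMOD (d * B.2 : ℕ)] →
      c + 1 ≤ w B * (|(x : ℝ)| / B.2) → ∀ n : ℕ, ∃ B' ∈ C,
      (T d m r)^[n] x ≡ B'.1 [ZMOD (d * B'.2 : ℕ)] ∧
      c + l ^ n ≤ w B' * (|(((T d m r)^[n] x : ℤ) : ℝ)| / B'.2) := by
    intro B hB x hx hx0 n
    induction n with
    | zero =>
      refine ⟨B, hB, hx, ?_⟩
      simpa using hx0
    | succ n ih =>
      obtain ⟨B', hB', hx', hle⟩ := ih
      obtain ⟨B'', hB'', hP, hx''⟩ := next D hC hB' hx'
      refine ⟨B'', hB'', ?_, ?_⟩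
      · rw [Function.iterate_succ_apply']; exact hx''
      · rw [Function.iterate_succ_apply']
        set y := (T d m r)^[n] x with hy
        obtain ⟨-, h1⟩ := norm_step D hC hB' hP hx'
        have hw'' := hw B'' hB''
        have h2 := hpot B' hB' B'' hP
        have hy0 : 0 ≤ |(y : ℝ)| / B'.2 := by positivity
        have h3 : w B'' * (β d b e B' * (|(y : ℝ)| / B'.2) - R) ≤
            w B'' * (|((T d m r y : ℤ) : ℝ)| / B''.2) :=
          mul_le_mul_of_nonneg_left h1 (by linarith)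
        have h5 : l * w B' * (|(y : ℝ)| / B'.2) ≤ β d b e B' * w B'' * (|(y : ℝ)| / B'.2) :=
          mul_le_mul_of_nonneg_right h2 hy0
        have h6 : w B'' * R ≤ W * R := mul_le_mul_of_nonneg_right hw''.2 hR
        have h7 : l * (c + l ^ n) ≤ l * (w B' * (|(y : ℝ)| / B'.2)) :=
          mul_le_mul_of_nonneg_left hle (by linarith)
        have h8 : l * (c + l ^ n) - W * R = c + l ^ (n + 1) := by
          rw [hc, pow_succ]
          have : l - 1 ≠ 0 := by linarith
          field_simp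
          ring
        rw [← h8]
        nlinarith
  by_cases hne : C.Nonempty
  · obtain ⟨B0, hB0⟩ := hne
    have hW1 : 1 ≤ W := by have := hw B0 hB0; linarith
    have hc0 : 0 ≤ c := by rw [hc]; positivity
    refine ⟨max W (Km * (c + 1)), lt_max_of_lt_left (by linarith), ?_⟩
    intro x hx hxK n
    obtain ⟨B, hB, hxB⟩ := hx
    have hk : (1 : ℝ) ≤ B.2 := by exact_mod_cast state_pos D hC hB
    have h0 : c + 1 ≤ w B * (|(x : ℝ)| / B.2) := by
      have h1 : Km * (c + 1) ≤ |(x : ℝ)| := (le_max_right _ _).trans hxK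
      have h2 : c + 1 ≤ |(x : ℝ)| / B.2 := by
        rw [le_div_iff₀ (by linarith), mul_comm]
        exact (mul_le_mul_of_nonneg_right (hKm B hB) (by linarith)).trans h1
      exact h2.trans (le_mul_of_one_le_left (by positivity) (hw B hB).1)
    obtain ⟨B', hB', -, hle⟩ := key B hB x hxB h0 n
    have hk' : (1 : ℝ) ≤ B'.2 := by exact_mod_cast state_pos D hC hB'
    have h3 : |(((T d m r)^[n] x : ℤ) : ℝ)| / B'.2 ≤ |(((T d m r)^[n] x : ℤ) : ℝ)| :=
      div_le_self (abs_nonneg _) hk'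
    calc l ^ n ≤ w B' * (|(((T d m r)^[n] x : ℤ) : ℝ)| / B'.2) := by linarith
      _ ≤ W * |(((T d m r)^[n] x : ℤ) : ℝ)| :=
          mul_le_mul (hw B' hB').2 h3 (by positivity) (by linarith)
      _ ≤ _ := mul_le_mul_of_nonneg_right (le_max_left _ _) (abs_nonneg _)
  · refine ⟨1, one_pos, ?_⟩
    intro x hx
    obtain ⟨B, hB, -⟩ := hx
    exact absurd ⟨B, hB⟩ hne

/-- an exponential lower bound implies divergence -/
theorem tends {f : ℤ → ℤ} {x : ℤ} {K l : ℝ} (hK : 0 < K) (hl : 1 < l)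
    (h : ∀ n : ℕ, l ^ n ≤ K * |((f^[n] x : ℤ) : ℝ)|) :
    Tendsto (fun n : ℕ => |f^[n] x|) atTop atTop := by
  have h1 : Tendsto (fun n : ℕ => l ^ n / K) atTop atTop :=
    (tendsto_pow_atTop_atTop_of_one_lt hl).atTop_div_const hK
  have h2 : Tendsto (fun n : ℕ => ((|f^[n] x| : ℤ) : ℝ)) atTop atTop := by
    apply tendsto_atTop_mono _ h1
    intro n
    rw [div_le_iff₀ hK]
    push_cast
    rw [mul_comm]
    exact h n
  exact tendsto_intCast_atTop_iff.1 h2

end Pool.Agent.W44.LM
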