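import Mathlib

set_option autoImplicit false

/-!
Potentials on a finite graph whose closed paths have product at most one.
-/

namespace Pool.Agent.W44.LM

open Finset

/-- products along all paths are bounded if they are at most one along the short closed paths -/
theorem path_bound {α : Type*} (C : Finset α) (E : α → α → Prop)
    (hcl : ∀ B ∈ C, ∀ B', E B B' → B' ∈ C) (f : α → ℝ) (hf : ∀ B ∈ C, 0 < f B)
    (hloop : ∀ (p : ℕ) (γ : ℕ → α), 1 ≤ p → p ≤ C.card → γ 0 ∈ C →
      (∀ t < p, E (γ t) (γ (t + 1))) → γ p = γ 0 → ∏ t ∈ range p, f (γ t) ≤ 1)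
    (A : ℝ) (hA1 : 1 ≤ A) (hA : ∀ B ∈ C, f B ≤ A) :
    ∀ (n : ℕ) (γ : ℕ → α), γ 0 ∈ C → (∀ t < n, E (γ t) (γ (t + 1))) →
      ∏ t ∈ range n, f (γ t) ≤ A ^ C.card := by
  classical
  intro n
  induction n using Nat.strong_induction_on with
  | _ n ih =>
    intro γ h0 hγ
    have hmem : ∀ t ≤ n, γ t ∈ C := by
      intro t
      induction t with
      | zero => intro _; exact h0
      | succ t iht => intro ht; exact hcl _ (iht (by omega)) _ (hγ t (by omega))
    by_cases hn : n ≤ C.card
    · calc ∏ t ∈ range n, f (γ t) ≤ ∏ t ∈ range n, A := by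
            apply prod_le_prod
            · intro t ht; exact (hf _ (hmem t (mem_range.1 ht).le)).le
            · intro t ht; exact hA _ (hmem t (mem_range.1 ht).le)
        _ = A ^ n := by rw [prod_const, card_range]
        _ ≤ _ := pow_le_pow_right₀ hA1 hn
    · obtain ⟨i, j, hlt, hj, heq⟩ : ∃ i j : ℕ, i < j ∧ j < C.card + 1 ∧ γ i = γ j := by
        obtain ⟨i, hi, j, hj, hij, heq⟩ :=
          exists_ne_map_eq_of_card_lt_of_maps_to (s := range (C.card + 1)) (t := C) (f := γ)
          (by rw [card_range]; omega) (by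
            intro t ht
            have h1 : t < C.card + 1 := by simpa using ht
            exact hmem t (by omega))
        rw [mem_range] at hi hj
        rcases lt_or_gt_of_ne hij with h | h
        · exact ⟨i, j, h, hj, heq⟩
        · exact ⟨j, i, h, hi, heq.symm⟩
      set γ' : ℕ → α := fun t => if t < i then γ t else γ (t + (j - i)) with hγ'
      have h1 : ∏ t ∈ range (n - (j - i)), f (γ' t) ≤ A ^ C.card := by
        apply ih _ (by omega)
        · by_cases hi0 : 0 < i
          · simp only [hγ', if_pos hi0]; exact h0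
          · simp only [hγ', if_neg hi0]; exact hmem _ (by omega)
        · intro t ht
          by_cases h2 : t + 1 < i
          · have h3 : t < i := by omega
            simp only [hγ', if_pos h2, if_pos h3]
            exact hγ t (by omega)
          · by_cases h3 : t < i
            · have h4 : t + 1 = i := by omega
              simp only [hγ', if_neg h2, if_pos h3]
              have h5 : t + 1 + (j - i) = j := by omega
              rw [h5, ← heq, ← h4]
              exact hγ t (by omega)
            · simp only [hγ', if_neg h2, if_neg h3]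
              have h5 : t + 1 + (j - i) = t + (j - i) + 1 := by omega
              rw [h5]
              exact hγ _ (by omega)
      have h2 : ∏ t ∈ range (j - i), f (γ (i + t)) ≤ 1 := by
        apply hloop (j - i) (fun t => γ (i + t)) (by omega) (by omega) (hmem i (by omega))
        · intro t ht
          exact hγ (i + t) (by omega)
        · have h3 : i + (j - i) = j := by omega
          change γ (i + (j - i)) = γ (i + 0)
          rw [h3, add_zero, heq]
      have h3 : ∏ t ∈ range n, f (γ t) =
          (∏ t ∈ range (n - (j - i)), f (γ' t)) * ∏ t ∈ range (j - i), f (γ (i + t)) := by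
        have e1 : ∏ t ∈ range n, f (γ t) = (∏ t ∈ range i, f (γ t)) *
            ((∏ t ∈ Ico i j, f (γ t)) * ∏ t ∈ Ico j n, f (γ t)) := by
          rw [prod_Ico_consecutive _ hlt.le (by omega), prod_range_mul_prod_Ico _ (by omega)]
        have e2 : ∏ t ∈ range (n - (j - i)), f (γ' t) = (∏ t ∈ range i, f (γ t)) *
            ∏ t ∈ Ico j n, f (γ t) := by
          rw [← prod_range_mul_prod_Ico (fun t => f (γ' t)) (show i ≤ n - (j - i) by omega)]
          congr 1
          · apply prod_congr rfl
            intro t ht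
            rw [mem_range] at ht
            simp only [hγ', if_pos ht]
          · have e3 : ∏ t ∈ Ico i (n - (j - i)), f (γ' t) =
                ∏ t ∈ Ico i (n - (j - i)), f (γ (t + (j - i))) := by
              apply prod_congr rfl
              intro t ht
              rw [mem_Ico] at ht
              simp only [hγ', if_neg (show ¬ t < i by omega)]
            rw [e3, prod_Ico_add' (fun t => f (γ t)) i (n - (j - i)) (j - i)]
            have e4 : i + (j - i) = j := by omega
            have e5 : n - (j - i) + (j - i) = n := by omega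
            rw [e4, e5]
        have e3 : ∏ t ∈ Ico i j, f (γ t) = ∏ t ∈ range (j - i), f (γ (i + t)) :=
          prod_Ico_eq_prod_range _ _ _
        rw [e1, e2, e3]
        ring
      rw [h3]
      have hpos : 0 ≤ ∏ t ∈ range (n - (j - i)), f (γ' t) := by
        apply prod_nonneg
        intro t ht
        rw [mem_range] at ht
        by_cases h4 : t < i
        · simp only [hγ', if_pos h4]; exact (hf _ (hmem t (by omega))).le
        · simp only [hγ', if_neg h4]; exact (hf _ (hmem _ (by omega))).le
      calc _ ≤ (∏ t ∈ range (n - (j - i)), f (γ' t)) * 1 := mul_le_mul_of_nonneg_left h2 hpos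
        _ ≤ _ := by rw [mul_one]; exact h1

/-- put a vertex in front of a path -/
def cons {α : Type*} (B : α) (γ : ℕ → α) : ℕ → α
  | 0 => B
  | t + 1 => γ t

/-- existence of a potential -/
theorem exists_pot {α : Type*} (C : Finset α) (E : α → α → Prop)
    (hcl : ∀ B ∈ C, ∀ B', E B B' → B' ∈ C) (f : α → ℝ) (hf : ∀ B ∈ C, 0 < f B)
    (hloop : ∀ (p : ℕ) (γ : ℕ → α), 1 ≤ p → p ≤ C.card → γ 0 ∈ C →
      (∀ t < p, E (γ t) (γ (t + 1))) → γ p = γ 0 → ∏ t ∈ range p, f (γ t) ≤ 1) :
    ∃ (u : α → ℝ) (M : ℝ), 1 ≤ M ∧ (∀ B ∈ C, 1 ≤ u B ∧ u B ≤ M) ∧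
      ∀ B ∈ C, ∀ B', E B B' → f B * u B' ≤ u B := by
  classical
  set A : ℝ := 1 + ∑ B ∈ C, f B with hA
  have hs : 0 ≤ ∑ B ∈ C, f B := sum_nonneg fun B hB => (hf B hB).le
  have hA1 : 1 ≤ A := by rw [hA]; linarith
  have hAf : ∀ B ∈ C, f B ≤ A := by
    intro B hB
    have : f B ≤ ∑ B ∈ C, f B := single_le_sum (fun B hB => (hf B hB).le) hB
    linarith
  set V : α → Set ℝ := fun B => {v | ∃ (n : ℕ) (γ : ℕ → α), γ 0 = B ∧
    (∀ t < n, E (γ t) (γ (t + 1))) ∧ v = ∏ t ∈ range n, f (γ t)} with hV
  have hbdd : ∀ B ∈ C, BddAbove (V B) := by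
    intro B hB
    refine ⟨A ^ C.card, ?_⟩
    rintro v ⟨n, γ, h0, hγ, rfl⟩
    exact path_bound C E hcl f hf hloop A hA1 hAf n γ (by rw [h0]; exact hB) hγ
  have hone : ∀ B : α, (1 : ℝ) ∈ V B := fun B => ⟨0, fun _ => B, rfl, by simp, by simp⟩
  refine ⟨fun B => sSup (V B), A ^ C.card, one_le_pow₀ hA1, ?_, ?_⟩
  · intro B hB
    constructor
    · exact le_csSup (hbdd B hB) (hone B)
    · apply csSup_le ⟨1, hone B⟩
      rintro v ⟨n, γ, h0, hγ, rfl⟩
      exact path_bound C E hcl f hf hloop A hA1 hAf n γ (by rw [h0]; exact hB) hγ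
  · intro B hB B' hE
    have hfB := hf B hB
    change f B * sSup (V B') ≤ sSup (V B)
    rw [mul_comm, ← le_div_iff₀ hfB]
    apply csSup_le ⟨1, hone B'⟩
    rintro v ⟨n, γ, h0, hγ, rfl⟩
    rw [le_div_iff₀ hfB]
    apply le_csSup (hbdd B hB)
    refine ⟨n + 1, cons B γ, rfl, ?_, ?_⟩
    · intro t ht
      rcases t with _ | t
      · change E B (γ 0)
        rw [h0]; exact hE
      · exact hγ t (by omega)
    · rw [prod_range_succ']
      rfl

end Pool.Agent.W44.LM
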