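import Mathlib
import Pool.Agent.W44.LM.Main
import Pool.Agent.W44.LM.Pot

set_option autoImplicit false

/-!
Leigh's chain: closed paths.
-/

namespace Pool.Agent.W44.LM

open Finset Filter Pool.Agent.H319R2.M Pool.Agent.H319R2.Leigh

/-- `γ 0 → γ 1 → … → γ p = γ 0` is a closed path of length `p ≥ 1` in the class `C` of Leigh's
chain -/
structure ClosedPath (d : ℕ) (m r : ℤ → ℤ) (e : ℤ → ℕ) (C : Finset (ℤ × ℕ)) (p : ℕ)
    (γ : ℕ → ℤ × ℕ) : Prop where
  pos : 1 ≤ p
  start : γ 0 ∈ C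
  step : ∀ t < p, 0 < P d m r e (γ t) (γ (t + 1))
  closed : γ p = γ 0

/-- the product of the numbers `|m_i| / d` along the first `p` states of a path -/
noncomputable def pathProd (d : ℕ) (m : ℤ → ℤ) (p : ℕ) (γ : ℕ → ℤ × ℕ) : ℝ :=
  ∏ t ∈ range p, (|(m ((γ t).1 % d) : ℝ)| / d)

variable {d : ℕ} {m r b : ℤ → ℤ} {e : ℤ → ℕ} {C : Finset (ℤ × ℕ)} {ρ : ℤ × ℕ → ℝ}

theorem mem_path (hC : Class d m r e C ρ) {p : ℕ} {γ : ℕ → ℤ × ℕ} (h : ClosedPath d m r e C p γ) :
    ∀ t ≤ p, γ t ∈ C := by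
  intro t
  induction t with
  | zero => intro _; exact h.start
  | succ t ih => intro ht; exact hC.closed _ (ih (by omega)) _ (h.step t (by omega))

/-- on a closed path the product of the `|m_i| / d` is the product of the `|b| / n` -/
theorem pathProd_eq (D : Data d m r b e) (hC : Class d m r e C ρ) {p : ℕ} {γ : ℕ → ℤ × ℕ}
    (h : ClosedPath d m r e C p γ) : pathProd d m p γ = ∏ t ∈ range p, β d b e (γ t) := by
  have hk : ∀ t ≤ p, (0 : ℝ) < (γ t).2 := fun t ht => by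
    have := state_pos D hC (mem_path hC h t ht)
    exact_mod_cast this
  have h1 : pathProd d m p γ * ∏ t ∈ range p, ((γ t).2 : ℝ) =
      (∏ t ∈ range p, β d b e (γ t)) * ∏ t ∈ range p, ((γ (t + 1)).2 : ℝ) := by
    unfold pathProd
    rw [← prod_mul_distrib, ← prod_mul_distrib]
    apply prod_congr rfl
    intro t ht
    rw [mem_range] at ht
    exact mult D hC (mem_path hC h t ht.le) (h.step t ht)
  have h2 : ∏ t ∈ range p, ((γ (t + 1)).2 : ℝ) = ∏ t ∈ range p, ((γ t).2 : ℝ) := by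
    have e1 := prod_range_succ' (fun t => ((γ t).2 : ℝ)) p
    have e2 := prod_range_succ (fun t => ((γ t).2 : ℝ)) p
    rw [e1] at e2
    rw [h.closed] at e2
    exact mul_right_cancel₀ (hk 0 (by omega)).ne' e2
  rw [h2] at h1
  have h3 : ∏ t ∈ range p, ((γ t).2 : ℝ) ≠ 0 :=
    prod_ne_zero_iff.2 fun t ht => (hk t (mem_range.1 ht).le).ne'
  exact mul_right_cancel₀ h3 h1

/-- the product along a path is an integer divided by a power of `d` -/
theorem pathProd_num (D : Data d m r b e) (p : ℕ) (γ : ℕ → ℤ × ℕ) :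
    pathProd d m p γ = ((∏ t ∈ range p, (m ((γ t).1 % d)).natAbs : ℕ) : ℝ) / (d : ℝ) ^ p := by
  unfold pathProd
  rw [prod_div_distrib, prod_const, card_range]
  congr 1
  push_cast
  apply prod_congr rfl
  intro t _
  rw [Nat.cast_natAbs]
  push_cast
  rfl

theorem le_gap (D : Data d m r b e) {p s : ℕ} (hp : p ≤ s) (γ : ℕ → ℤ × ℕ)
    (h : pathProd d m p γ < 1) : pathProd d m p γ ≤ 1 - 1 / (d : ℝ) ^ s := by
  have hd : (1 : ℝ) ≤ d := by exact_mod_cast d_pos D
  have hdp : (0 : ℝ) < (d : ℝ) ^ p := by positivity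
  rw [pathProd_num D] at h ⊢
  rw [div_lt_one hdp] at h
  have h1 : (∏ t ∈ range p, (m ((γ t).1 % d)).natAbs) + 1 ≤ d ^ p := by exact_mod_cast h
  have h2 : ((∏ t ∈ range p, (m ((γ t).1 % d)).natAbs : ℕ) : ℝ) + 1 ≤ (d : ℝ) ^ p := by
    exact_mod_cast h1
  have h3 : 1 / (d : ℝ) ^ s ≤ 1 / (d : ℝ) ^ p :=
    one_div_le_one_div_of_le hdp (pow_le_pow_right₀ hd hp)
  have h4 : ((∏ t ∈ range p, (m ((γ t).1 % d)).natAbs : ℕ) : ℝ) / (d : ℝ) ^ p ≤
      1 - 1 / (d : ℝ) ^ p := by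
    rw [div_le_iff₀ hdp, sub_mul, one_mul, div_mul_cancel₀ _ hdp.ne']
    linarith
  linarith

theorem ge_gap (D : Data d m r b e) {p s : ℕ} (hp : p ≤ s) (γ : ℕ → ℤ × ℕ)
    (h : 1 < pathProd d m p γ) : 1 + 1 / (d : ℝ) ^ s ≤ pathProd d m p γ := by
  have hd : (1 : ℝ) ≤ d := by exact_mod_cast d_pos D
  have hdp : (0 : ℝ) < (d : ℝ) ^ p := by positivity
  rw [pathProd_num D] at h ⊢
  rw [one_lt_div hdp] at h
  have h1 : d ^ p + 1 ≤ ∏ t ∈ range p, (m ((γ t).1 % d)).natAbs := by exact_mod_cast h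
  have h2 : (d : ℝ) ^ p + 1 ≤ ((∏ t ∈ range p, (m ((γ t).1 % d)).natAbs : ℕ) : ℝ) := by
    exact_mod_cast h1
  have h3 : 1 / (d : ℝ) ^ s ≤ 1 / (d : ℝ) ^ p :=
    one_div_le_one_div_of_le hdp (pow_le_pow_right₀ hd hp)
  have h4 : 1 + 1 / (d : ℝ) ^ p ≤
      ((∏ t ∈ range p, (m ((γ t).1 % d)).natAbs : ℕ) : ℝ) / (d : ℝ) ^ p := by
    rw [le_div_iff₀ hdp, add_mul, one_mul, div_mul_cancel₀ _ hdp.ne']
    linarith
  linarith

/-- if a closed path is neutral then the class is a single deterministic cycle -/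
theorem neutral (D : Data d m r b e) (hC : Class d m r e C ρ) {p : ℕ} {γ : ℕ → ℤ × ℕ}
    (h : ClosedPath d m r e C p γ) (h1 : pathProd d m p γ = 1) :
    ∀ B ∈ C, succ d e B = 1 ∧ |b (B.1 % d)| = 1 := by
  have h2 := pathProd_eq D hC h
  rw [h1] at h2
  have hs : ∀ t, (0 : ℝ) < succ d e (γ t) := fun t => by exact_mod_cast succ_pos D (γ t)
  have h3 : ∏ t ∈ range p, (b ((γ t).1 % d)).natAbs = ∏ t ∈ range p, succ d e (γ t) := by
    have h4 : ∏ t ∈ range p, β d b e (γ t) =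
        ((∏ t ∈ range p, (b ((γ t).1 % d)).natAbs : ℕ) : ℝ) /
          ((∏ t ∈ range p, succ d e (γ t) : ℕ) : ℝ) := by
      unfold β
      rw [prod_div_distrib]
      push_cast
      congr 1
      apply prod_congr rfl
      intro t _
      rw [Nat.cast_natAbs]
      push_cast
      rfl
    rw [h4] at h2
    have h5 : (0 : ℝ) < ((∏ t ∈ range p, succ d e (γ t) : ℕ) : ℝ) := by
      push_cast
      exact prod_pos fun t _ => hs t
    rw [eq_comm, div_eq_one_iff_eq h5.ne'] at h2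
    exact_mod_cast h2
  have hcop : ∀ s t : ℕ, Nat.Coprime (b ((γ s).1 % d)).natAbs (succ d e (γ t)) := by
    intro s t
    have h4 := D.cop _ (res0 D (γ s).1) (res1 D (γ s).1)
    have h5 : Nat.Coprime (b ((γ s).1 % d)).natAbs d := by
      have := Int.isCoprime_iff_gcd_eq_one.1 h4
      simpa [Int.gcd, Nat.Coprime] using this
    exact h5.coprime_dvd_right (succ_dvd D _)
  have h4 : Nat.Coprime (∏ t ∈ range p, (b ((γ t).1 % d)).natAbs)
      (∏ t ∈ range p, succ d e (γ t)) :=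
    Nat.Coprime.prod_left fun s _ => Nat.Coprime.prod_right fun t _ => hcop s t
  have h5 : ∏ t ∈ range p, succ d e (γ t) = 1 := by
    rw [h3] at h4
    exact (Nat.coprime_self _).1 h4
  have h6 : ∀ t < p, succ d e (γ t) = 1 := by
    intro t ht
    have := dvd_prod_of_mem (fun t => succ d e (γ t)) (mem_range.2 ht)
    rw [h5] at this
    exact Nat.dvd_one.1 this
  have h7 : ∀ t < p, (b ((γ t).1 % d)).natAbs = 1 := by
    intro t ht
    have := dvd_prod_of_mem (fun t => (b ((γ t).1 % d)).natAbs) (mem_range.2 ht)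
    rw [h3, h5] at this
    exact Nat.dvd_one.1 this
  have hp := h.pos
  have h8 : ∀ B, Relation.ReflTransGen (fun X Y => 0 < P d m r e X Y) (γ 0) B →
      ∃ t < p, B = γ t := by
    intro B hB
    induction hB with
    | refl => exact ⟨0, by omega, rfl⟩
    | tail _ hXY ih =>
      obtain ⟨t, ht, rfl⟩ := ih
      have h9 := det D _ _ _ (h6 t ht) hXY (h.step t ht)
      rcases Nat.lt_or_ge (t + 1) p with h10 | h10
      · exact ⟨t + 1, h10, h9⟩
      · have h11 : t + 1 = p := by omega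
        rw [h11, h.closed] at h9
        exact ⟨0, by omega, h9⟩
  intro B hB
  obtain ⟨t, ht, rfl⟩ := h8 B (hC.comm _ h.start B hB)
  refine ⟨h6 t ht, ?_⟩
  rw [Int.abs_eq_natAbs, h7 t ht]
  rfl

theorem neutral_Lam (D : Data d m r b e) (hC : Class d m r e C ρ) {p : ℕ} {γ : ℕ → ℤ × ℕ}
    (h : ClosedPath d m r e C p γ) (h1 : pathProd d m p γ = 1) : Lam d m C ρ = 1 := by
  have h2 := neutral D hC h h1
  have h3 : Real.log (Lam d m C ρ) = 0 := by
    rw [log_Lam_β D hC]
    apply sum_eq_zero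
    intro B hB
    obtain ⟨h4, h5⟩ := h2 B hB
    have h6 : β d b e B = 1 := by
      unfold β
      rw [h4, h5]; norm_num
    rw [h6, Real.log_one, mul_zero]
  rw [← Real.exp_log (Lam_pos D (C := C) (ρ := ρ)), h3, Real.exp_zero]

/-- a function bounded by a coboundary has non-positive mean -/
theorem mean_le (D : Data d m r b e) (hC : Class d m r e C ρ) (g h : ℤ × ℕ → ℝ)
    (hgh : ∀ B ∈ C, ∀ B', 0 < P d m r e B B' → g B ≤ h B - h B') : ∑ B ∈ C, ρ B * g B ≤ 0 := by
  have h1 : ∀ B ∈ C, g B ≤ h B - ∑ B' ∈ C, P d m r e B B' * h B' := by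
    intro B hB
    have h2 : ∑ B' ∈ C, P d m r e B B' * g B ≤ ∑ B' ∈ C, P d m r e B B' * (h B - h B') := by
      apply sum_le_sum
      intro B' _
      rcases P_zero_or (d := d) (m := m) (r := r) (e := e) B B' with h0 | h0
      · rw [h0]; simp
      · exact mul_le_mul_of_nonneg_left (hgh B hB B' h0) h0.le
    rw [← sum_mul, sum_one D hC hB, one_mul] at h2
    refine h2.trans (le_of_eq ?_)
    simp only [mul_sub]
    rw [sum_sub_distrib, ← sum_mul, sum_one D hC hB, one_mul]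
  have h2 : ∑ B ∈ C, ρ B * g B ≤ ∑ B ∈ C, ρ B * (h B - ∑ B' ∈ C, P d m r e B B' * h B') :=
    sum_le_sum fun B hB => mul_le_mul_of_nonneg_left (h1 B hB) (hC.nonneg B hB)
  refine h2.trans (le_of_eq ?_)
  have h3 : ∀ B ∈ C, ρ B * (h B - ∑ B' ∈ C, P d m r e B B' * h B') =
      ρ B * h B - ∑ B' ∈ C, ρ B * P d m r e B B' * h B' := by
    intro B _
    rw [mul_sub, mul_sum]
    congr 1
    exact sum_congr rfl fun B' _ => by ring
  rw [sum_congr rfl h3, sum_sub_distrib, sum_comm]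
  have h4 : ∑ B' ∈ C, ∑ B ∈ C, ρ B * P d m r e B B' * h B' = ∑ B' ∈ C, ρ B' * h B' := by
    apply sum_congr rfl
    intro B' hB'
    rw [← sum_mul, hC.stat B' hB']
  rw [h4, sub_self]

/-- the multiplier of a state is positive -/
theorem a_pos (D : Data d m r b e) (B : ℤ × ℕ) : 0 < |(m (B.1 % d) : ℝ)| / d :=
  (gm D).a_pos B.1

theorem card_pos (hC : Class d m r e C ρ) : C.card ≠ 0 := by
  intro h
  rw [card_eq_zero] at h
  have := hC.sum_one
  rw [h, sum_empty] at this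
  exact zero_ne_one this

/-- potential when all short closed paths contract -/
theorem pot_lt (D : Data d m r b e) (hC : Class d m r e C ρ)
    (h : ∀ p γ, p ≤ C.card → ClosedPath d m r e C p γ → pathProd d m p γ < 1) :
    ∃ (u : ℤ × ℕ → ℝ) (l M : ℝ), 1 < l ∧ 1 ≤ M ∧ (∀ B ∈ C, 1 ≤ u B ∧ u B ≤ M) ∧
      ∀ B ∈ C, ∀ B', 0 < P d m r e B B' → |(m (B.1 % d) : ℝ)| / d * l * u B' ≤ u B := by
  have hd : (2 : ℝ) ≤ d := by exact_mod_cast D.two_le
  have hds : (2 : ℝ) ≤ (d : ℝ) ^ C.card := by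
    calc (2 : ℝ) ≤ d := hd
      _ = (d : ℝ) ^ 1 := (pow_one _).symm
      _ ≤ _ := pow_le_pow_right₀ (by linarith) (Nat.one_le_iff_ne_zero.2 (card_pos hC))
  have hc1 : 0 < 1 - 1 / (d : ℝ) ^ C.card := by
    rw [sub_pos, div_lt_one (by linarith)]; linarith
  obtain ⟨l, hl, hlp⟩ := exists_root ((1 - 1 / (d : ℝ) ^ C.card)⁻¹)
    (one_lt_inv₀ hc1 |>.2 (by
      have : 0 < 1 / (d : ℝ) ^ C.card := by positivity
      linarith)) C.card (card_pos hC)
  obtain ⟨u, M, hM, hu, hpot⟩ := exists_pot C (fun B B' => 0 < P d m r e B B') hC.closed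
    (fun B => |(m (B.1 % d) : ℝ)| / d * l) (fun B _ => mul_pos (a_pos D B) (by linarith))
    (by
      intro p γ h1 hps h2 h3 h4
      have h5 := h p γ hps ⟨h1, h2, h3, h4⟩
      have h6 := le_gap D hps γ h5
      rw [prod_mul_distrib, prod_const, card_range]
      change pathProd d m p γ * l ^ p ≤ 1
      calc pathProd d m p γ * l ^ p ≤ (1 - 1 / (d : ℝ) ^ C.card) * l ^ C.card :=
            mul_le_mul h6 (pow_le_pow_right₀ hl.le hps) (by positivity) hc1.le
        _ = 1 := by rw [hlp]; exact mul_inv_cancel₀ hc1.ne')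
  exact ⟨u, l, M, hl, hM, hu, hpot⟩

/-- potential when all short closed paths expand -/
theorem pot_gt (D : Data d m r b e) (hC : Class d m r e C ρ)
    (h : ∀ p γ, p ≤ C.card → ClosedPath d m r e C p γ → 1 < pathProd d m p γ) :
    ∃ (u : ℤ × ℕ → ℝ) (l M : ℝ), 1 < l ∧ 1 ≤ M ∧ (∀ B ∈ C, 1 ≤ u B ∧ u B ≤ M) ∧
      ∀ B ∈ C, ∀ B', 0 < P d m r e B B' → l * u B' ≤ |(m (B.1 % d) : ℝ)| / d * u B := by
  have hd : (2 : ℝ) ≤ d := by exact_mod_cast D.two_le
  have hds : (0 : ℝ) < 1 / (d : ℝ) ^ C.card := by positivity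
  obtain ⟨l, hl, hlp⟩ := exists_root (1 + 1 / (d : ℝ) ^ C.card) (by linarith) C.card (card_pos hC)
  obtain ⟨u, M, hM, hu, hpot⟩ := exists_pot C (fun B B' => 0 < P d m r e B B') hC.closed
    (fun B => l / (|(m (B.1 % d) : ℝ)| / d)) (fun B _ => div_pos (by linarith) (a_pos D B))
    (by
      intro p γ h1 hps h2 h3 h4
      have h5 := h p γ hps ⟨h1, h2, h3, h4⟩
      have h6 := ge_gap D hps γ h5
      rw [prod_div_distrib, prod_const, card_range]
      change l ^ p / pathProd d m p γ ≤ 1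
      rw [div_le_one (by linarith)]
      calc l ^ p ≤ l ^ C.card := pow_le_pow_right₀ hl.le hps
        _ = 1 + 1 / (d : ℝ) ^ C.card := hlp
        _ ≤ _ := h6)
  refine ⟨u, l, M, hl, hM, hu, ?_⟩
  intro B hB B' hP
  have h6 := a_pos D B
  have h8 : l / (|(m (B.1 % d) : ℝ)| / d) * u B' ≤ u B := hpot B hB B' hP
  rw [div_mul_eq_mul_div, div_le_iff₀ h6] at h8
  linarith

/-- all short closed paths contract -/
theorem Lam_lt (D : Data d m r b e) (hC : Class d m r e C ρ)
    (h : ∀ p γ, p ≤ C.card → ClosedPath d m r e C p γ → pathProd d m p γ < 1) :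
    Lam d m C ρ < 1 := by
  obtain ⟨u, l, M, hl, -, hu, hpot⟩ := pot_lt D hC h
  have hl0 : 0 < Real.log l := Real.log_pos hl
  have h1 := mean_le D hC (fun B => Real.log (|(m (B.1 % d) : ℝ)| / d) + Real.log l)
    (fun B => Real.log (u B)) (by
    intro B hB B' hP
    have hB' := hC.closed B hB B' hP
    have h2 := hpot B hB B' hP
    have h3 := hu B hB
    have h4 := hu B' hB'
    have h5 := a_pos D B
    have h6 := Real.log_le_log (mul_pos (mul_pos h5 (by linarith)) (by linarith)) h2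
    rw [Real.log_mul (mul_pos h5 (by linarith)).ne' (by linarith),
      Real.log_mul h5.ne' (by linarith)] at h6
    linarith)
  simp only [mul_add] at h1
  rw [sum_add_distrib, ← sum_mul, hC.sum_one, one_mul] at h1
  have h2 : Real.log (Lam d m C ρ) = ∑ B ∈ C, ρ B * Real.log (|(m (B.1 % d) : ℝ)| / d) :=
    log_Lam D hC
  by_contra hcon
  have := Real.log_nonneg (not_lt.1 hcon)
  linarith

/-- all short closed paths expand -/
theorem lt_Lam (D : Data d m r b e) (hC : Class d m r e C ρ)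
    (h : ∀ p γ, p ≤ C.card → ClosedPath d m r e C p γ → 1 < pathProd d m p γ) :
    1 < Lam d m C ρ := by
  obtain ⟨u, l, M, hl, -, hu, hpot⟩ := pot_gt D hC h
  have hl0 : 0 < Real.log l := Real.log_pos hl
  have h1 := mean_le D hC (fun B => Real.log l - Real.log (|(m (B.1 % d) : ℝ)| / d))
    (fun B => Real.log (u B)) (by
    intro B hB B' hP
    have hB' := hC.closed B hB B' hP
    have h2 := hpot B hB B' hP
    have h3 := hu B hB
    have h4 := hu B' hB'
    have h5 := a_pos D B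
    have h6 := Real.log_le_log (mul_pos (by linarith) (by linarith)) h2
    rw [Real.log_mul (by linarith) (by linarith), Real.log_mul h5.ne' (by linarith)] at h6
    linarith)
  simp only [mul_sub] at h1
  rw [sum_sub_distrib, ← sum_mul, hC.sum_one, one_mul] at h1
  have h2 : Real.log (Lam d m C ρ) = ∑ B ∈ C, ρ B * Real.log (|(m (B.1 % d) : ℝ)| / d) :=
    log_Lam D hC
  by_contra hcon
  have := Real.log_nonpos (Lam_pos D (C := C) (ρ := ρ)).le (not_lt.1 hcon)
  linarith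

/-- all short closed paths contract: the trajectories -/
theorem cyc_down (D : Data d m r b e) (hC : Class d m r e C ρ)
    (h : ∀ p γ, p ≤ C.card → ClosedPath d m r e C p γ → pathProd d m p γ < 1) :
    ∃ K : ℝ, 0 < K ∧ ∀ x ∈ S d C, ∀ n : ℕ, K * Real.log (1 + |(x : ℝ)|) ≤ n →
      |(((T d m r)^[n] x : ℤ) : ℝ)| ≤ K := by
  obtain ⟨u, l, M, hl, hM, hu, hpot⟩ := pot_lt D hC h
  obtain ⟨Km, hKm1, hKm⟩ := exists_size D hC
  apply contract D hC (fun B => u B * B.2) l (M * Km) hl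
  · intro B hB
    have h1 := hu B hB
    have h2 : (1 : ℝ) ≤ B.2 := by exact_mod_cast state_pos D hC hB
    exact ⟨one_le_mul_of_one_le_of_one_le h1.1 h2,
      mul_le_mul h1.2 (hKm B hB) (by linarith) (by linarith)⟩
  · intro B hB B' hP
    have h1 := hpot B hB B' hP
    have h2 := mult D hC hB hP
    have h3 : (0 : ℝ) ≤ B.2 := by positivity
    calc β d b e B * (u B' * B'.2) * l = β d b e B * B'.2 * u B' * l := by ring
      _ = |(m (B.1 % d) : ℝ)| / d * B.2 * u B' * l := by rw [h2]; rfl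
      _ = |(m (B.1 % d) : ℝ)| / d * l * u B' * B.2 := by ring
      _ ≤ u B * B.2 := mul_le_mul_of_nonneg_right h1 h3

/-- all short closed paths expand: the trajectories -/
theorem cyc_up (D : Data d m r b e) (hC : Class d m r e C ρ)
    (h : ∀ p γ, p ≤ C.card → ClosedPath d m r e C p γ → 1 < pathProd d m p γ) :
    ∃ K l : ℝ, 0 < K ∧ 1 < l ∧ ∀ x ∈ S d C, K ≤ |(x : ℝ)| → ∀ n : ℕ,
      l ^ n ≤ K * |(((T d m r)^[n] x : ℤ) : ℝ)| := by
  obtain ⟨u, l, M, hl, hM, hu, hpot⟩ := pot_gt D hC h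
  obtain ⟨Km, hKm1, hKm⟩ := exists_size D hC
  obtain ⟨K, hK, hfin⟩ := expand D hC (fun B => M / u B * B.2) l (M * Km) hl (by
    intro B hB
    have h1 := hu B hB
    have h2 : (1 : ℝ) ≤ B.2 := by exact_mod_cast state_pos D hC hB
    have h3 : 1 ≤ M / u B := by rw [one_le_div (by linarith)]; exact h1.2
    have h4 : M / u B ≤ M := div_le_self (by linarith) h1.1
    exact ⟨one_le_mul_of_one_le_of_one_le h3 h2, mul_le_mul h4 (hKm B hB) (by linarith)
      (by linarith)⟩) (by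
    intro B hB B' hP
    have h1 := hpot B hB B' hP
    have h2 := mult D hC hB hP
    have h3 : (1 : ℝ) ≤ B.2 := by exact_mod_cast state_pos D hC hB
    have h4 := hu B hB
    have h5 := hu B' (hC.closed B hB B' hP)
    have h6 := a_pos D B
    have h8 : l / u B ≤ |(m (B.1 % d) : ℝ)| / d / u B' := by
      rw [div_le_div_iff₀ (by linarith) (by linarith)]
      exact h1
    calc l * (M / u B * B.2) = l / u B * (M * B.2) := by ring
      _ ≤ |(m (B.1 % d) : ℝ)| / d / u B' * (M * B.2) :=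
          mul_le_mul_of_nonneg_right h8 (mul_nonneg (by linarith) (by linarith))
      _ = |(m (B.1 % d) : ℝ)| / d * B.2 * (M / u B') := by ring
      _ = β d b e B * (M / u B' * B'.2) := by rw [h2]; unfold β; ring)
  exact ⟨K, l, hK, hl, hfin⟩

/-- monotone classes have no expanding closed path -/
theorem mono_down (D : Data d m r b e) (hC : Class d m r e C ρ)
    (h : ∀ B ∈ C, |b (B.1 % d)| ≤ (succ d e B : ℤ)) {p : ℕ} {γ : ℕ → ℤ × ℕ}
    (hγ : ClosedPath d m r e C p γ) : pathProd d m p γ ≤ 1 := by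
  rw [pathProd_eq D hC hγ]
  apply prod_le_one
  · intro t _; exact β_nonneg _
  · intro t ht
    have h1 := h _ (mem_path hC hγ t (mem_range.1 ht).le)
    have h2 : (0 : ℝ) < succ d e (γ t) := by exact_mod_cast succ_pos D (γ t)
    unfold β
    rw [div_le_one h2]
    exact_mod_cast h1

theorem mono_up (D : Data d m r b e) (hC : Class d m r e C ρ)
    (h : ∀ B ∈ C, (succ d e B : ℤ) ≤ |b (B.1 % d)|) {p : ℕ} {γ : ℕ → ℤ × ℕ}
    (hγ : ClosedPath d m r e C p γ) : 1 ≤ pathProd d m p γ := by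
  rw [pathProd_eq D hC hγ]
  have key : ∀ q ≤ p, 1 ≤ ∏ t ∈ range q, β d b e (γ t) := by
    intro q
    induction q with
    | zero => intro _; simp
    | succ q ih =>
      intro hq
      rw [prod_range_succ]
      have h1 := h _ (mem_path hC hγ q (by omega))
      have h2 : (0 : ℝ) < succ d e (γ q) := by exact_mod_cast succ_pos D (γ q)
      have h3 : 1 ≤ β d b e (γ q) := by
        unfold β
        rw [one_le_div h2]
        exact_mod_cast h1
      exact one_le_mul_of_one_le_of_one_le (ih (by omega)) h3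
  exact key p le_rfl

/-- a multiplier dividing a power of `d` has `|b| = 1` -/
theorem b_one (D : Data d m r b e) (B : ℤ × ℕ) (N : ℕ) (h : m (B.1 % d) ∣ (d : ℤ) ^ N) :
    |b (B.1 % d)| = 1 := by
  have h1 := D.cop _ (res0 D B.1) (res1 D B.1)
  have h2 := D.fac _ (res0 D B.1) (res1 D B.1)
  have h3 : b (B.1 % d) ∣ (d : ℤ) ^ N := (Dvd.intro _ h2.symm).trans h
  have h4 : IsUnit (b (B.1 % d)) := (h1.pow_right (n := N)).isUnit_of_dvd' dvd_rfl h3
  exact Int.isUnit_iff_abs_eq.1 h4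

end Pool.Agent.W44.LM
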