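import Mathlib
import Pool.Agent.W44.LM.Cyc

set_option autoImplicit false

/-!
Leigh's chain: realisation of paths by integers, and the sharpness of the closed path criterion.
-/

namespace Pool.Agent.W44.LM

open Finset Filter Pool.Agent.H319R2.M Pool.Agent.H319R2.Leigh

variable {d : ℕ} {m r b : ℤ → ℤ} {e : ℤ → ℕ} {C : Finset (ℤ × ℕ)} {ρ : ℤ × ℕ → ℝ}

/-- every path of the chain is followed by all integers of some residue class -/
theorem realize (D : Data d m r b e) (hC : Class d m r e C ρ) :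
    ∀ (n : ℕ) (γ : ℕ → ℤ × ℕ), γ 0 ∈ C → (∀ t < n, 0 < P d m r e (γ t) (γ (t + 1))) →
    ∃ (x0 : ℤ) (M N : ℕ), 0 < M ∧ M ∣ d ^ N ∧ ∀ x : ℤ, x ≡ x0 [ZMOD M] → ∀ t ≤ n,
      (T d m r)^[t] x ≡ (γ t).1 [ZMOD (d * (γ t).2 : ℕ)] := by
  intro n
  induction n with
  | zero =>
    intro γ h0 _
    obtain ⟨N, hN⟩ := (hC.state _ h0).2.2
    refine ⟨(γ 0).1, d * (γ 0).2, N + 1, Nat.mul_pos (d_pos D) (state_pos D hC h0), ?_, ?_⟩
    · rw [pow_succ, mul_comm]; exact Nat.mul_dvd_mul hN dvd_rfl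
    · intro x hx t ht
      have : t = 0 := by omega
      subst this
      exact hx
  | succ n ih =>
    intro γ h0 hγ
    have hP := hγ 0 (by omega)
    have h1 : γ 1 ∈ C := hC.closed _ h0 _ hP
    obtain ⟨y0, M', N', hM', hMd, hy⟩ := ih (fun t => γ (t + 1)) h1
      (fun t ht => hγ (t + 1) (by omega))
    have hy0 : y0 ≡ (γ 1).1 [ZMOD (d * (γ 1).2 : ℕ)] := hy y0 rfl 0 (by omega)
    obtain ⟨a1, -, -, a4⟩ := (P_pos_iff D _ _).1 hP
    set B := γ 0 with hB
    set K : ℕ := B.2 * e (B.1 % d) with hK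
    have hKd : K ∣ d * (γ 1).2 := by
      have h2 : (γ 1).2 * Nat.gcd K d = K := by
        rw [a1]; exact Nat.div_mul_cancel (Nat.gcd_dvd_left _ _)
      rw [← h2, mul_comm]
      exact Nat.mul_dvd_mul (Nat.gcd_dvd_right _ _) dvd_rfl
    have hy1 : T d m r B.1 ≡ y0 [ZMOD (K : ℤ)] :=
      a4.trans (hy0.of_dvd (by exact_mod_cast hKd)).symm
    obtain ⟨q, hq⟩ := hy1.dvd
    have hcop : IsCoprime (b (B.1 % d)) (M' : ℤ) := by
      have h2 := (D.cop _ (res0 D B.1) (res1 D B.1)).pow_right (n := N')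
      exact h2.of_isCoprime_of_dvd_right (by exact_mod_cast hMd)
    obtain ⟨s, t, hst⟩ := hcop
    obtain ⟨N, hN⟩ := (hC.state _ h0).2.2
    refine ⟨B.1 + d * B.2 * (s * q), d * B.2 * M', N + 1 + N',
      Nat.mul_pos (Nat.mul_pos (d_pos D) (state_pos D hC h0)) hM', ?_, ?_⟩
    · rw [pow_add, pow_succ, mul_comm (d ^ N)]
      exact Nat.mul_dvd_mul (Nat.mul_dvd_mul dvd_rfl hN) hMd
    · intro x hx
      obtain ⟨v, hv⟩ := hx.symm.dvd
      push_cast at hv
      have hxe : x = B.1 + (gm D).d * B.2 * (s * q + M' * v) := by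
        change x = B.1 + (d : ℤ) * B.2 * (s * q + M' * v)
        linarith
      have hi0 := (gm D).res_nonneg B.1
      have hi1 := (gm D).res_lt B.1
      have hT : T d m r x = T d m r B.1 + K * (b (B.1 % d) * (s * q + M' * v)) := by
        change (gm D).T x = (gm D).T B.1 + _
        rw [hxe, (gm D).T_affine, (gm_fac D).eq _ hi0 hi1, hK]
        push_cast
        change _ = (gm D).T B.1 + (B.2 : ℤ) * (e (B.1 % (gm D).d) : ℤ) *
          (b (B.1 % (gm D).d) * (s * q + M' * v))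
        ring
      have hTy : T d m r x ≡ y0 [ZMOD (M' : ℤ)] := by
        rw [Int.modEq_iff_dvd]
        refine ⟨K * (t * q - b (B.1 % d) * v), ?_⟩
        rw [hT]
        have h2 : y0 = T d m r B.1 + K * q := by linarith
        rw [h2]
        have h3 : (K : ℤ) * (b (B.1 % d) * (s * q)) = K * q * (s * b (B.1 % d)) := by ring
        have h4 : s * b (B.1 % d) = 1 - t * M' := by linarith
        rw [h4] at h3
        linear_combination h3 * (-1)
      intro t' ht'
      rcases t' with _ | t'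
      · change x ≡ B.1 [ZMOD (d * B.2 : ℕ)]
        rw [Int.modEq_iff_dvd]
        refine ⟨-(s * q + M' * v), ?_⟩
        have : x = B.1 + (d : ℤ) * B.2 * (s * q + M' * v) := hxe
        rw [this]; push_cast; ring
      · rw [Function.iterate_succ_apply]
        exact hy _ hTy t' (by omega)

/-- the size along a path -/
theorem along (D : Data d m r b e) (γ : ℕ → ℤ × ℕ) (n : ℕ) : ∃ c : ℝ, 0 ≤ c ∧ ∀ x : ℤ,
    (∀ t ≤ n, (T d m r)^[t] x ≡ (γ t).1 [ZMOD (d * (γ t).2 : ℕ)]) →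
    |(((T d m r)^[n] x : ℤ) : ℝ)| ≤ pathProd d m n γ * |(x : ℝ)| + c ∧
      pathProd d m n γ * |(x : ℝ)| - c ≤ |(((T d m r)^[n] x : ℤ) : ℝ)| := by
  induction n with
  | zero =>
    refine ⟨0, le_rfl, ?_⟩
    intro x _
    simp [pathProd]
  | succ n ih =>
    obtain ⟨c, hc, h⟩ := ih
    have ha := a_pos D (γ n)
    have hR := (gm D).R_nonneg
    refine ⟨|(m ((γ n).1 % d) : ℝ)| / d * c + (gm D).R, by positivity, ?_⟩
    intro x hx
    obtain ⟨h1, h2⟩ := h x fun t ht => hx t (by omega)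
    have hres : ((T d m r)^[n] x) % (d : ℤ) = (γ n).1 % d := by
      have h3 := hx n (by omega)
      have : (T d m r)^[n] x ≡ (γ n).1 [ZMOD (d : ℤ)] :=
        h3.of_dvd ⟨((γ n).2 : ℤ), by push_cast; ring⟩
      exact this
    rw [Function.iterate_succ_apply']
    set y := (T d m r)^[n] x with hy
    have h3 := (gm D).step_le y
    have h4 := step_ge (gm D) y
    have h5 : (gm D).a (y % (gm D).d) = |(m ((γ n).1 % d) : ℝ)| / d := by
      change (gm D).a (y % (d : ℤ)) = _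
      rw [hres]; rfl
    rw [h5] at h3 h4
    change |((T d m r y : ℤ) : ℝ)| ≤ _ at h3
    change _ ≤ |((T d m r y : ℤ) : ℝ)| at h4
    have h6 : pathProd d m (n + 1) γ = pathProd d m n γ * (|(m ((γ n).1 % d) : ℝ)| / d) := by
      unfold pathProd
      rw [prod_range_succ]
    rw [h6]
    have h7 := mul_le_mul_of_nonneg_left h1 ha.le
    have h8 := mul_le_mul_of_nonneg_left h2 ha.le
    constructor
    · nlinarith
    · nlinarith

theorem pathProd_pos (D : Data d m r b e) (p : ℕ) (γ : ℕ → ℤ × ℕ) : 0 < pathProd d m p γ := by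
  unfold pathProd
  exact prod_pos fun t _ => a_pos D (γ t)

/-- going round a closed path `N` times -/
theorem rounds (D : Data d m r b e) (hC : Class d m r e C ρ) {p : ℕ} {γ : ℕ → ℤ × ℕ}
    (h : ClosedPath d m r e C p γ) (N : ℕ) : ∃ c : ℝ, 0 ≤ c ∧ ∀ X : ℝ, ∃ x ∈ S d C, X ≤ |(x : ℝ)| ∧
      |(((T d m r)^[N * p] x : ℤ) : ℝ)| ≤ pathProd d m p γ ^ N * |(x : ℝ)| + c ∧
      pathProd d m p γ ^ N * |(x : ℝ)| - c ≤ |(((T d m r)^[N * p] x : ℤ) : ℝ)| := by
  have hp := h.pos
  set γ' : ℕ → ℤ × ℕ := fun t => γ (t % p) with hγ'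
  have hstep : ∀ t < N * p, 0 < P d m r e (γ' t) (γ' (t + 1)) := by
    intro t _
    have h1 : t % p < p := Nat.mod_lt _ (by omega)
    have h2 := h.step _ h1
    rcases Nat.lt_or_ge (t % p + 1) p with h3 | h3
    · have h4 : (t + 1) % p = t % p + 1 := by
        rw [Nat.add_mod, Nat.mod_eq_of_lt (show 1 < p by omega), Nat.mod_eq_of_lt h3]
      simp only [hγ', h4]
      exact h2
    · have h4 : t % p + 1 = p := by omega
      have h5 : (t + 1) % p = 0 := by
        have h6 : t + 1 = p * (t / p) + (t % p + 1) := by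
          have := Nat.div_add_mod t p
          omega
        rw [h6, h4, Nat.mul_add_mod, Nat.mod_self]
      rw [h4, h.closed] at h2
      simp only [hγ', h5]
      exact h2
  have hprod : pathProd d m (N * p) γ' = pathProd d m p γ ^ N := by
    clear hstep
    induction N with
    | zero => simp [pathProd]
    | succ N ih =>
      have h1 : pathProd d m ((N + 1) * p) γ' = pathProd d m (N * p) γ' * pathProd d m p γ := by
        unfold pathProd
        rw [add_mul, one_mul, prod_range_add]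
        congr 1
        apply prod_congr rfl
        intro t ht
        rw [mem_range] at ht
        have h2 : (N * p + t) % p = t := by
          rw [mul_comm, Nat.mul_add_mod, Nat.mod_eq_of_lt ht]
        simp only [hγ', h2]
      rw [h1, ih, pow_succ]
  have h0 : γ' 0 ∈ C := by
    change γ (0 % p) ∈ C
    rw [Nat.zero_mod]; exact h.start
  obtain ⟨x0, M, -, hM, -, hreal⟩ := realize D hC (N * p) γ' h0 hstep
  obtain ⟨c, hc, hal⟩ := along D γ' (N * p)
  rw [hprod] at hal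
  refine ⟨c, hc, ?_⟩
  intro X
  obtain ⟨k, hk⟩ := exists_nat_ge (|X| + |(x0 : ℝ)|)
  have hmod : x0 + M * k ≡ x0 [ZMOD M] := by
    rw [Int.modEq_iff_dvd]
    exact ⟨-k, by ring⟩
  have hpath := hreal _ hmod
  refine ⟨x0 + M * k, ⟨γ' 0, h0, hpath 0 (by omega)⟩, ?_, hal _ hpath⟩
  push_cast
  have hM1 : (1 : ℝ) ≤ M := by exact_mod_cast hM
  have hk0 : (0 : ℝ) ≤ k := by positivity
  have h1 : (k : ℝ) ≤ M * k := le_mul_of_one_le_left hk0 hM1
  have h2 : - |(x0 : ℝ)| ≤ x0 := neg_abs_le _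
  have h3 : X ≤ |X| := le_abs_self X
  exact le_trans (by linarith) (le_abs_self ((x0 : ℝ) + M * k))

/-- an expanding closed path makes trajectories grow by arbitrary factors -/
theorem grows (D : Data d m r b e) (hC : Class d m r e C ρ) {p : ℕ} {γ : ℕ → ℤ × ℕ}
    (h : ClosedPath d m r e C p γ) (h1 : 1 < pathProd d m p γ) (K : ℝ) :
    ∃ x ∈ S d C, ∃ n : ℕ, K * (1 + |(x : ℝ)|) < |(((T d m r)^[n] x : ℤ) : ℝ)| := by
  obtain ⟨N, hN⟩ := pow_unbounded_of_one_lt (|K| + 1) h1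
  obtain ⟨c, hc, hr⟩ := rounds D hC h N
  obtain ⟨x, hx, hX, -, hlow⟩ := hr (c + |K| + 1)
  refine ⟨x, hx, N * p, lt_of_lt_of_le ?_ hlow⟩
  have h2 : K ≤ |K| := le_abs_self K
  have hx0 : 0 ≤ |(x : ℝ)| := abs_nonneg _
  have h3 : (|K| + 1) * |(x : ℝ)| ≤ pathProd d m p γ ^ N * |(x : ℝ)| :=
    mul_le_mul_of_nonneg_right hN.le hx0
  have h4 : K * |(x : ℝ)| ≤ |K| * |(x : ℝ)| := mul_le_mul_of_nonneg_right h2 hx0
  nlinarith

/-- a contracting closed path makes trajectories shrink by arbitrary factors -/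
theorem shrinks (D : Data d m r b e) (hC : Class d m r e C ρ) {p : ℕ} {γ : ℕ → ℤ × ℕ}
    (h : ClosedPath d m r e C p γ) (h1 : pathProd d m p γ < 1) (K : ℝ) :
    ∃ x ∈ S d C, ∃ n : ℕ, K * (1 + |(((T d m r)^[n] x : ℤ) : ℝ)|) < |(x : ℝ)| := by
  have hK : 0 < |K| + 1 := by positivity
  obtain ⟨N, hN⟩ := exists_pow_lt_of_lt_one (show 0 < 1 / (2 * (|K| + 1)) by positivity) h1
  obtain ⟨c, hc, hr⟩ := rounds D hC h N
  obtain ⟨x, hx, hX, hup, -⟩ := hr (2 * (|K| + 1) * (1 + c) + 1)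
  refine ⟨x, hx, N * p, ?_⟩
  have hx0 : 0 ≤ |(x : ℝ)| := abs_nonneg _
  have h2 : pathProd d m p γ ^ N * |(x : ℝ)| ≤ 1 / (2 * (|K| + 1)) * |(x : ℝ)| :=
    mul_le_mul_of_nonneg_right hN.le hx0
  have h3 : K * (1 + |(((T d m r)^[N * p] x : ℤ) : ℝ)|) ≤
      (|K| + 1) * (1 + |(((T d m r)^[N * p] x : ℤ) : ℝ)|) :=
    mul_le_mul_of_nonneg_right (by linarith [le_abs_self K]) (by positivity)
  have h4 : (|K| + 1) * (1 + |(((T d m r)^[N * p] x : ℤ) : ℝ)|) ≤
      (|K| + 1) * (1 + (1 / (2 * (|K| + 1)) * |(x : ℝ)| + c)) :=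
    mul_le_mul_of_nonneg_left (by linarith) hK.le
  have h5 : (|K| + 1) * (1 + (1 / (2 * (|K| + 1)) * |(x : ℝ)| + c)) =
      (|K| + 1) * (1 + c) + |(x : ℝ)| / 2 := by
    field_simp
    ring
  linarith

/-- linear upper bound for all trajectories -/
theorem lin_up (D : Data d m r b e) (hC : Class d m r e C ρ)
    (h : ∀ p γ, p ≤ C.card → ClosedPath d m r e C p γ → pathProd d m p γ < 1) :
    ∃ K : ℝ, ∀ x ∈ S d C, ∀ n : ℕ, |(((T d m r)^[n] x : ℤ) : ℝ)| ≤ K * (1 + |(x : ℝ)|) := by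
  obtain ⟨u, l, M, hl, hM, hu, hpot⟩ := pot_lt D hC h
  have hR := (gm D).R_nonneg
  set R := (gm D).R with hRdef
  have hl1 : 0 < l - 1 := by linarith
  set c := M * R * l / (l - 1) with hc
  have hc0 : 0 ≤ c := by rw [hc]; positivity
  have key : ∀ B ∈ C, ∀ x : ℤ, x ≡ B.1 [ZMOD (d * B.2 : ℕ)] → ∀ n : ℕ, ∃ B' ∈ C,
      (T d m r)^[n] x ≡ B'.1 [ZMOD (d * B'.2 : ℕ)] ∧
      u B' * |(((T d m r)^[n] x : ℤ) : ℝ)| ≤ u B * |(x : ℝ)| + c := by
    intro B hB x hx n
    induction n with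
    | zero =>
      refine ⟨B, hB, hx, ?_⟩
      simp only [Function.iterate_zero, id_eq]
      linarith
    | succ n ih =>
      obtain ⟨B', hB', hx', hle⟩ := ih
      obtain ⟨B'', hB'', hP, hx''⟩ := next D hC hB' hx'
      refine ⟨B'', hB'', ?_, ?_⟩
      · rw [Function.iterate_succ_apply']; exact hx''
      · rw [Function.iterate_succ_apply']
        set y := (T d m r)^[n] x with hy
        have hres : y % (d : ℤ) = B'.1 % d := by
          have : y ≡ B'.1 [ZMOD (d : ℤ)] := hx'.of_dvd ⟨(B'.2 : ℤ), by push_cast; ring⟩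
          exact this
        have h1 := (gm D).step_le y
        have h5 : (gm D).a (y % (gm D).d) = |(m (B'.1 % d) : ℝ)| / d := by
          change (gm D).a (y % (d : ℤ)) = _
          rw [hres]; rfl
        rw [h5] at h1
        change |((T d m r y : ℤ) : ℝ)| ≤ _ at h1
        have h2 := hpot B' hB' B'' hP
        have hw'' := hu B'' hB''
        have hy0 : 0 ≤ |(y : ℝ)| := abs_nonneg _
        have hx0 : 0 ≤ u B * |(x : ℝ)| := mul_nonneg (by linarith [(hu B hB).1]) (abs_nonneg _)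
        have h3 : u B'' * |((T d m r y : ℤ) : ℝ)| ≤
            u B'' * (|(m (B'.1 % d) : ℝ)| / d * |(y : ℝ)| + R) :=
          mul_le_mul_of_nonneg_left h1 (by linarith)
        have h4 : u B'' * (|(m (B'.1 % d) : ℝ)| / d) ≤ u B' / l := by
          rw [le_div_iff₀ (by linarith)]; linarith
        have h6 : u B'' * (|(m (B'.1 % d) : ℝ)| / d) * |(y : ℝ)| ≤ u B' / l * |(y : ℝ)| :=
          mul_le_mul_of_nonneg_right h4 hy0
        have h7 : u B'' * R ≤ M * R := mul_le_mul_of_nonneg_right hw''.2 hR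
        have h8 : u B' / l * |(y : ℝ)| ≤ (u B * |(x : ℝ)| + c) / l := by
          rw [div_mul_eq_mul_div]
          exact div_le_div_of_nonneg_right hle (by linarith)
        have h9 : (u B * |(x : ℝ)| + c) / l + M * R ≤ u B * |(x : ℝ)| + c := by
          have e1 : c / l + M * R = c := by
            rw [hc]
            have : l ≠ 0 := by linarith
            have : l - 1 ≠ 0 := by linarith
            field_simp
            ring
          have e2 : u B * |(x : ℝ)| / l ≤ u B * |(x : ℝ)| := div_le_self hx0 hl.le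
          rw [add_div]
          linarith
        nlinarith
  refine ⟨M + c, ?_⟩
  intro x hx n
  obtain ⟨B, hB, hxB⟩ := hx
  obtain ⟨B', hB', -, hle⟩ := key B hB x hxB n
  have h1 : |(((T d m r)^[n] x : ℤ) : ℝ)| ≤ u B' * |(((T d m r)^[n] x : ℤ) : ℝ)| :=
    le_mul_of_one_le_left (abs_nonneg _) (hu B' hB').1
  have h2 : u B * |(x : ℝ)| ≤ M * |(x : ℝ)| :=
    mul_le_mul_of_nonneg_right (hu B hB).2 (abs_nonneg _)
  have h3 : 0 ≤ c * |(x : ℝ)| := mul_nonneg hc0 (abs_nonneg _)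
  nlinarith

/-- linear lower bound for all trajectories -/
theorem lin_down (D : Data d m r b e) (hC : Class d m r e C ρ)
    (h : ∀ p γ, p ≤ C.card → ClosedPath d m r e C p γ → 1 < pathProd d m p γ) :
    ∃ K : ℝ, ∀ x ∈ S d C, ∀ n : ℕ, |(x : ℝ)| ≤ K * (1 + |(((T d m r)^[n] x : ℤ) : ℝ)|) := by
  obtain ⟨u, l, M, hl, hM, hu, hpot⟩ := pot_gt D hC h
  have hR := (gm D).R_nonneg
  set R := (gm D).R with hRdef
  have hl1 : 0 < l - 1 := by linarith
  set c := R / (l - 1) with hc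
  have hc0 : 0 ≤ c := by rw [hc]; positivity
  have key : ∀ B ∈ C, ∀ x : ℤ, x ≡ B.1 [ZMOD (d * B.2 : ℕ)] → c ≤ |(x : ℝ)| / u B → ∀ n : ℕ,
      ∃ B' ∈ C, (T d m r)^[n] x ≡ B'.1 [ZMOD (d * B'.2 : ℕ)] ∧
      |(x : ℝ)| / u B ≤ |(((T d m r)^[n] x : ℤ) : ℝ)| / u B' := by
    intro B hB x hx hxc n
    induction n with
    | zero => exact ⟨B, hB, hx, le_rfl⟩
    | succ n ih =>
      obtain ⟨B', hB', hx', hle⟩ := ih
      obtain ⟨B'', hB'', hP, hx''⟩ := next D hC hB' hx'
      refine ⟨B'', hB'', ?_, ?_⟩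
      · rw [Function.iterate_succ_apply']; exact hx''
      · rw [Function.iterate_succ_apply']
        set y := (T d m r)^[n] x with hy
        have hres : y % (d : ℤ) = B'.1 % d := by
          have : y ≡ B'.1 [ZMOD (d : ℤ)] := hx'.of_dvd ⟨(B'.2 : ℤ), by push_cast; ring⟩
          exact this
        have h1 := step_ge (gm D) y
        have h5 : (gm D).a (y % (gm D).d) = |(m (B'.1 % d) : ℝ)| / d := by
          change (gm D).a (y % (d : ℤ)) = _
          rw [hres]; rfl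
        rw [h5] at h1
        change _ ≤ |((T d m r y : ℤ) : ℝ)| at h1
        have h2 := hpot B' hB' B'' hP
        have hw' := hu B' hB'
        have hw'' := hu B'' hB''
        have hy0 : 0 ≤ |(y : ℝ)| := abs_nonneg _
        have h3 : l * (|(y : ℝ)| / u B') ≤ |(m (B'.1 % d) : ℝ)| / d * |(y : ℝ)| / u B'' := by
          rw [mul_div_assoc', div_le_div_iff₀ (by linarith) (by linarith)]
          calc l * |(y : ℝ)| * u B'' = l * u B'' * |(y : ℝ)| := by ring
            _ ≤ |(m (B'.1 % d) : ℝ)| / d * u B' * |(y : ℝ)| :=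
                mul_le_mul_of_nonneg_right h2 hy0
            _ = _ := by ring
        have h4 : (|(m (B'.1 % d) : ℝ)| / d * |(y : ℝ)| - R) / u B'' ≤
            |((T d m r y : ℤ) : ℝ)| / u B'' :=
          div_le_div_of_nonneg_right h1 (by linarith)
        have h6 : R / u B'' ≤ R := div_le_self hR hw''.1
        rw [sub_div] at h4
        have h7 : l * c - R = c := by
          rw [hc]
          have : l - 1 ≠ 0 := by linarith
          field_simp
          ring
        have h8 : l * (|(x : ℝ)| / u B) ≤ l * (|(y : ℝ)| / u B') :=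
          mul_le_mul_of_nonneg_left hle (by linarith)
        nlinarith
  refine ⟨M * (1 + c), ?_⟩
  intro x hx n
  obtain ⟨B, hB, hxB⟩ := hx
  have hw := hu B hB
  have hT0 : 0 ≤ |(((T d m r)^[n] x : ℤ) : ℝ)| := abs_nonneg _
  rcases le_or_gt c (|(x : ℝ)| / u B) with h1 | h1
  · obtain ⟨B', hB', -, hle⟩ := key B hB x hxB h1 n
    have h2 : |(((T d m r)^[n] x : ℤ) : ℝ)| / u B' ≤ |(((T d m r)^[n] x : ℤ) : ℝ)| :=
      div_le_self hT0 (hu B' hB').1
    have h3 : |(x : ℝ)| ≤ |(((T d m r)^[n] x : ℤ) : ℝ)| * u B := by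
      rw [← div_le_iff₀ (by linarith)]
      exact hle.trans h2
    have h4 : |(((T d m r)^[n] x : ℤ) : ℝ)| * u B ≤ |(((T d m r)^[n] x : ℤ) : ℝ)| * M :=
      mul_le_mul_of_nonneg_left hw.2 hT0
    have h5 : 0 ≤ M * c * (1 + |(((T d m r)^[n] x : ℤ) : ℝ)|) := by positivity
    nlinarith
  · rw [div_lt_iff₀ (by linarith)] at h1
    have h2 : c * u B ≤ c * M := mul_le_mul_of_nonneg_left hw.2 hc0
    have h5 : 0 ≤ M * (1 + c) * |(((T d m r)^[n] x : ℤ) : ℝ)| := by positivity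
    nlinarith

end Pool.Agent.W44.LM
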